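import Pool.Agent.helper33.Esc.Basic

/-!
Coordinates, periodic smooth bumps, cells.
-/

noncomputable section

namespace Esc.H33

open MeasureTheory Set Filter Topology
open scoped ContDiff

/-! ### periodic bump of one variable -/

/-- smooth 1-periodic bump: `1` at distance `≤ a` from the integers, `0` at distance `≥ b` -/
def pb (a b t : ℝ) : ℝ :=
  Real.smoothTransition ((Real.cos (2 * Real.pi * t) - Real.cos (2 * Real.pi * b)) /
    (Real.cos (2 * Real.pi * a) - Real.cos (2 * Real.pi * b)))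

lemma pb_nonneg (a b t : ℝ) : 0 ≤ pb a b t := Real.smoothTransition.nonneg _

lemma pb_le_one (a b t : ℝ) : pb a b t ≤ 1 := Real.smoothTransition.le_one _

lemma pb_contDiff (a b : ℝ) {n : ℕ∞} : ContDiff ℝ n (pb a b) := by
  unfold pb
  apply Real.smoothTransition.contDiff.comp
  apply ContDiff.div_const
  apply ContDiff.sub _ contDiff_const
  exact Real.contDiff_cos.comp (contDiff_const.mul contDiff_id)

lemma pb_per (a b t : ℝ) : pb a b (t + 1) = pb a b t := by
  unfold pb
  have : 2 * Real.pi * (t + 1) = 2 * Real.pi * t + 2 * Real.pi := by ring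
  rw [this, Real.cos_add_two_pi]

lemma cos_dist (t : ℝ) (m : ℤ) : Real.cos (2 * Real.pi * t) = Real.cos (2 * Real.pi * |t - m|) := by
  have h1 : Real.cos (2 * Real.pi * t) = Real.cos (2 * Real.pi * (t - m)) := by
    have : 2 * Real.pi * (t - m) = 2 * Real.pi * t - m * (2 * Real.pi) := by ring
    rw [this, Real.cos_sub_int_mul_two_pi]
  rw [h1, ← Real.cos_abs (2 * Real.pi * (t - m)), abs_mul, abs_of_pos Real.two_pi_pos]

lemma cos_lt {a b : ℝ} (ha : 0 ≤ a) (hab : a < b) (hb : b ≤ 1 / 2) :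
    Real.cos (2 * Real.pi * b) < Real.cos (2 * Real.pi * a) := by
  apply Real.cos_lt_cos_of_nonneg_of_le_pi
  · positivity
  · nlinarith [Real.pi_pos]
  · nlinarith [Real.pi_pos]

lemma pb_one {a b t : ℝ} (ha : 0 ≤ a) (hab : a < b) (hb : b ≤ 1 / 2) {m : ℤ} (h : |t - m| ≤ a) :
    pb a b t = 1 := by
  unfold pb
  apply Real.smoothTransition.one_of_one_le
  have h1 := cos_lt ha hab hb
  rw [le_div_iff₀ (by linarith), one_mul, cos_dist t m]
  have h2 : Real.cos (2 * Real.pi * a) ≤ Real.cos (2 * Real.pi * |t - m|) := by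
    apply Real.cos_le_cos_of_nonneg_of_le_pi
    · positivity
    · nlinarith [Real.pi_pos]
    · nlinarith [Real.pi_pos]
  linarith

lemma pb_zero {a b t : ℝ} (ha : 0 ≤ a) (hab : a < b) (hb : b ≤ 1 / 2) (h : ∀ m : ℤ, b ≤ |t - m|) :
    pb a b t = 0 := by
  unfold pb
  apply Real.smoothTransition.zero_of_nonpos
  have h1 := cos_lt ha hab hb
  apply div_nonpos_of_nonpos_of_nonneg _ (by linarith)
  rw [cos_dist t (round t)]
  have h3 := h (round t)
  have h4 := abs_sub_round t
  have h2 : Real.cos (2 * Real.pi * |t - round t|) ≤ Real.cos (2 * Real.pi * b) := by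
    apply Real.cos_le_cos_of_nonneg_of_le_pi
    · have : 0 ≤ b := by linarith
      positivity
    · nlinarith [Real.pi_pos]
    · nlinarith [Real.pi_pos]
  linarith

lemma pb_ne_zero {a b t : ℝ} (ha : 0 ≤ a) (hab : a < b) (hb : b ≤ 1 / 2) (h : pb a b t ≠ 0) :
    ∃ m : ℤ, |t - m| < b := by
  by_contra hcon
  push Not at hcon
  exact h (pb_zero ha hab hb hcon)

/-! ### coordinates -/

variable {d : ℕ} {E : Type*} [NormedAddCommGroup E] [InnerProductSpace ℝ E] (L : Lat d E)

/-- the linear map from coordinates to vectors -/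
def cmap : ((Fin d → ℝ) × ℝ) →ₗ[ℝ] E where
  toFun q := ∑ i, q.1 i • L.b i + q.2 • L.g
  map_add' q r := by
    simp only [Prod.fst_add, Prod.snd_add, Pi.add_apply, add_smul, Finset.sum_add_distrib]
    abel
  map_smul' c q := by
    simp only [Prod.smul_fst, Prod.smul_snd, Pi.smul_apply, smul_eq_mul, RingHom.id_apply, smul_add,
      Finset.smul_sum, mul_smul]

lemma cmap_y (q : (Fin d → ℝ) × ℝ) : L.y (cmap L q) = q.2 := by
  show L.y (∑ i, q.1 i • L.b i + q.2 • L.g) = q.2
  rw [y_add, y_sum, y_smul, y_g]; ring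

lemma cmap_bij : Function.Bijective (cmap L) := by
  constructor
  · rw [← LinearMap.ker_eq_bot, LinearMap.ker_eq_bot']
    intro q hq
    have h2 : q.2 = 0 := by rw [← cmap_y L q, hq]; unfold Lat.y; simp
    have h1 : ∑ i, q.1 i • L.b i = 0 := by
      have : ∑ i, q.1 i • L.b i + q.2 • L.g = 0 := hq
      rw [h2, zero_smul, add_zero] at this
      exact this
    have h3 := Fintype.linearIndependent_iff.1 L.li q.1 h1
    exact Prod.ext (funext h3) h2
  · intro x
    have h : x - L.y x • L.g ∈ Submodule.span ℝ (Set.range L.b) := by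
      apply L.span
      have : L.y (x - L.y x • L.g) = 0 := by rw [y_sub, y_smul, y_g]; ring
      exact this
    rw [Submodule.mem_span_range_iff_exists_fun] at h
    obtain ⟨θ, hθ⟩ := h
    refine ⟨(θ, L.y x), ?_⟩
    show ∑ i, θ i • L.b i + L.y x • L.g = x
    rw [hθ]; abel

/-- coordinates as a continuous linear equivalence -/
def cequiv : ((Fin d → ℝ) × ℝ) ≃L[ℝ] E :=
  (LinearEquiv.ofBijective (cmap L) (cmap_bij L)).toContinuousLinearEquiv

lemma cequiv_apply (q : (Fin d → ℝ) × ℝ) : cequiv L q = ∑ i, q.1 i • L.b i + q.2 • L.g := rfl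

/-- affine coordinates, the last one being centred at `p` -/
def uc (p : ℝ) (x : E) : Option (Fin d) → ℝ
  | none => L.y x - p
  | some i => ((cequiv L).symm x).1 i

lemma symm_snd (x : E) : ((cequiv L).symm x).2 = L.y x := by
  have h := cmap_y L ((cequiv L).symm x)
  have h2 : cmap L ((cequiv L).symm x) = x := (cequiv L).apply_symm_apply x
  rw [h2] at h
  exact h.symm

lemma uc_eq (p : ℝ) (x : E) : x = ∑ i, uc L p x (some i) • L.b i + (uc L p x none + p) • L.g := by
  have h := (cequiv L).apply_symm_apply x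
  rw [cequiv_apply, symm_snd] at h
  simp only [uc, sub_add_cancel]
  exact h.symm

lemma uc_sub (p : ℝ) (x x' : E) (j : Option (Fin d)) : uc L p x j - uc L p x' j = uc L 0 (x - x') j := by
  cases j with
  | none => simp only [uc, y_sub]; ring
  | some i => simp only [uc, map_sub, Prod.fst_sub, Pi.sub_apply]

lemma uc_add (p : ℝ) (x r : E) (j : Option (Fin d)) : uc L p (x + r) j = uc L p x j + uc L 0 r j := by
  have := uc_sub L p (x + r) x j
  rw [add_sub_cancel_left] at this
  linarith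

lemma uc_b (i : Fin d) (j : Option (Fin d)) : uc L 0 (L.b i) j = if j = some i then 1 else 0 := by
  classical
  have h : (cequiv L).symm (L.b i) = (Pi.single i 1, 0) := by
    rw [ContinuousLinearEquiv.symm_apply_eq, cequiv_apply]
    simp [Pi.single_apply, ite_smul]
  cases j with
  | none => simp [uc, y_b]
  | some k => simp [uc, h, Pi.single_apply, eq_comm]

lemma uc_g (j : Option (Fin d)) : uc L 0 L.g j = if j = none then 1 else 0 := by
  have h : (cequiv L).symm L.g = (0, 1) := by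
    rw [ContinuousLinearEquiv.symm_apply_eq, cequiv_apply]
    simp
  cases j with
  | none => simp [uc, y_g]
  | some k => simp [uc, h]

lemma uc_lv (n : Fin d → ℤ) (i : Fin d) : uc L 0 (L.lv n) (some i) = n i := by
  have h : (cequiv L).symm (L.lv n) = (fun i => (n i : ℝ), 0) := by
    rw [ContinuousLinearEquiv.symm_apply_eq, cequiv_apply]
    simp [Lat.lv]
  simp [uc, h]

/-- a constant controlling the coordinates -/
def kap : ℝ := ‖((cequiv L).symm : E →L[ℝ] ((Fin d → ℝ) × ℝ))‖ + 1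

lemma kap_pos : 0 < kap L := by unfold kap; positivity

lemma uc_le (r : E) (j : Option (Fin d)) : |uc L 0 r j| ≤ kap L * ‖r‖ := by
  have h1 : ‖(cequiv L).symm r‖ ≤ ‖((cequiv L).symm : E →L[ℝ] ((Fin d → ℝ) × ℝ))‖ * ‖r‖ :=
    ((cequiv L).symm : E →L[ℝ] ((Fin d → ℝ) × ℝ)).le_opNorm r
  have h2 : ‖((cequiv L).symm : E →L[ℝ] ((Fin d → ℝ) × ℝ))‖ * ‖r‖ ≤ kap L * ‖r‖ := by
    unfold kap; nlinarith [norm_nonneg r]
  cases j with
  | none =>
    simp only [uc, sub_zero]
    rw [← symm_snd, ← Real.norm_eq_abs]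
    exact (norm_snd_le _).trans (h1.trans h2)
  | some i =>
    simp only [uc]
    rw [← Real.norm_eq_abs]
    exact ((norm_le_pi_norm _ i).trans (norm_fst_le _)).trans (h1.trans h2)

/-- a constant controlling vectors by coordinates -/
def kap2 : ℝ := ∑ i, ‖L.b i‖ + ‖L.g‖

lemma kap2_nonneg : 0 ≤ kap2 L := by unfold kap2; positivity

lemma norm_le_uc (x : E) {c : ℝ} (h : ∀ j, |uc L 0 x j| ≤ c) : ‖x‖ ≤ kap2 L * c := by
  rw [uc_eq L 0 x]
  calc ‖∑ i, uc L 0 x (some i) • L.b i + (uc L 0 x none + 0) • L.g‖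
      ≤ ∑ i, ‖uc L 0 x (some i) • L.b i‖ + ‖(uc L 0 x none + 0) • L.g‖ :=
        (norm_add_le _ _).trans (add_le_add (norm_sum_le _ _) le_rfl)
    _ ≤ ∑ i, ‖L.b i‖ * c + ‖L.g‖ * c := by
        gcongr with i _
        · rw [norm_smul, Real.norm_eq_abs, mul_comm]
          exact mul_le_mul_of_nonneg_left (h _) (norm_nonneg _)
        · rw [norm_smul, Real.norm_eq_abs, mul_comm, add_zero]
          exact mul_le_mul_of_nonneg_left (h _) (norm_nonneg _)
    _ = kap2 L * c := by unfold kap2; rw [← Finset.sum_mul]; ring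

/-! ### cells -/

variable {n : ℕ}

/-- cells of the torus -/
abbrev Cl (d n : ℕ) := Option (Fin d) → Fin n

/-- centre of a cell -/
def ctr (k : Cl d n) (j : Option (Fin d)) : ℝ := ((k j : ℕ) + 1 / 2) / n

/-- bump of a cell -/
def gc (p : ℝ) (k : Cl d n) (x : E) : ℝ := ∏ j, pb (5 / (8 * n)) (1 / n) (uc L p x j - ctr k j)

/-- `x` is close to (a translate of) the cell -/
def vs (p : ℝ) (k : Cl d n) (x : E) : Prop := ∀ j, ∃ m : ℤ, |uc L p x j - ctr k j - m| < 5 / (4 * n)

/-- `x` is in (a translate of) the cell -/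
def inc (p : ℝ) (k : Cl d n) (x : E) : Prop := ∀ j, ∃ m : ℤ, |uc L p x j - ctr k j - m| ≤ 1 / (2 * n)

lemma gc_nonneg (p : ℝ) (k : Cl d n) (x : E) : 0 ≤ gc L p k x :=
  Finset.prod_nonneg fun _ _ => pb_nonneg _ _ _

lemma gc_le_one (p : ℝ) (k : Cl d n) (x : E) : gc L p k x ≤ 1 :=
  Finset.prod_le_one (fun _ _ => pb_nonneg _ _ _) fun _ _ => pb_le_one _ _ _

lemma scale_facts (hn : 2 ≤ n) : (0:ℝ) ≤ 5 / (8 * n) ∧ (5:ℝ) / (8 * n) < 1 / n ∧ (1:ℝ) / n ≤ 1 / 2 := by
  have h : (2:ℝ) ≤ n := by exact_mod_cast hn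
  refine ⟨by positivity, ?_, ?_⟩
  · rw [div_lt_div_iff₀ (by positivity) (by positivity)]; linarith
  · rw [div_le_div_iff₀ (by positivity) (by positivity)]; linarith

lemma gc_eq_zero (hn : 2 ≤ n) (p : ℝ) (k : Cl d n) {x r : E} (h : ¬ vs L p k x)
    (hr : kap L * ‖r‖ ≤ 1 / (8 * n)) : gc L p k (x + r) = 0 := by
  obtain ⟨h1, h2, h3⟩ := scale_facts hn
  have hn' : (0:ℝ) < n := by have : (2:ℝ) ≤ n := by exact_mod_cast hn
                             linarith
  by_contra hne
  apply h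
  intro j
  unfold gc at hne
  rw [← ne_eq, Finset.prod_ne_zero_iff] at hne
  obtain ⟨m, hm⟩ := pb_ne_zero h1 h2 h3 (hne j (Finset.mem_univ j))
  refine ⟨m, ?_⟩
  rw [uc_add] at hm
  have h4 := (uc_le L r j).trans hr
  rw [abs_lt] at hm ⊢
  rw [abs_le] at h4
  have e1 : (5:ℝ) / (4 * n) = 1 / n + 1 / (8 * n) + 1 / (8 * n) := by field_simp; ring
  have e2 : (0:ℝ) < 1 / (8 * n) := by positivity
  rw [e1]
  constructor <;> linarith [hm.1, hm.2, h4.1, h4.2]

lemma gc_eq_one (hn : 2 ≤ n) (p : ℝ) (k : Cl d n) {x r : E} (h : inc L p k x)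
    (hr : kap L * ‖r‖ ≤ 1 / (8 * n)) : gc L p k (x + r) = 1 := by
  obtain ⟨h1, h2, h3⟩ := scale_facts hn
  have hn' : (0:ℝ) < n := by have : (2:ℝ) ≤ n := by exact_mod_cast hn
                             linarith
  unfold gc
  apply Finset.prod_eq_one
  intro j _
  obtain ⟨m, hm⟩ := h j
  apply pb_one h1 h2 h3 (m := m)
  rw [uc_add]
  have h4 := (uc_le L r j).trans hr
  rw [abs_le] at *
  have e1 : (5:ℝ) / (8 * n) = 1 / (2 * n) + 1 / (8 * n) := by field_simp; ring
  rw [e1]
  constructor <;> linarith [hm.1, hm.2, h4.1, h4.2]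

lemma exists_inc (hn : 2 ≤ n) (p : ℝ) (x : E) : ∃ k : Cl d n, inc L p k x := by
  have hn0 : 0 < n := by omega
  have hn' : (0:ℝ) < n := by exact_mod_cast hn0
  have hnz : (n:ℤ) ≠ 0 := by exact_mod_cast hn0.ne'
  refine ⟨fun j => ⟨(⌊uc L p x j * n⌋ % (n:ℤ)).toNat, ?_⟩, fun j => ?_⟩
  · have h1 := Int.emod_nonneg ⌊uc L p x j * n⌋ hnz
    have h2 := Int.emod_lt_of_pos ⌊uc L p x j * n⌋ (by exact_mod_cast hn0 : (0:ℤ) < n)
    omega
  · set F := ⌊uc L p x j * n⌋ with hF
    refine ⟨F / n, ?_⟩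
    have h1 := Int.emod_nonneg F hnz
    have h3 : (((F % (n:ℤ)).toNat : ℕ) : ℝ) = ((F % (n:ℤ) : ℤ) : ℝ) := by
      have : (((F % (n:ℤ)).toNat : ℕ) : ℤ) = F % (n:ℤ) := Int.toNat_of_nonneg h1
      exact_mod_cast this
    have h4 : ((F % (n:ℤ) : ℤ) : ℝ) = F - n * ((F / n : ℤ) : ℝ) := by
      have := Int.emod_add_mul_ediv F n
      have h5 : F % (n:ℤ) = F - n * (F / n) := by linarith
      rw [h5]; push_cast; ring
    simp only [ctr]
    rw [h3, h4]
    have h5 : uc L p x j - ((F:ℝ) - n * ((F / n : ℤ) : ℝ) + 1 / 2) / n - ((F / n : ℤ) : ℝ) =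
        (uc L p x j * n - F - 1 / 2) / n := by field_simp; ring
    rw [h5, abs_div, abs_of_pos hn', div_le_div_iff₀ hn' (by positivity)]
    have h6 : |uc L p x j * n - F - 1 / 2| ≤ 1 / 2 := by
      have a := Int.floor_le (uc L p x j * n)
      have b := Int.lt_floor_add_one (uc L p x j * n)
      rw [abs_le]; constructor <;> linarith
    nlinarith

lemma sum_gc_ge (hn : 2 ≤ n) (p : ℝ) (x : E) : 1 ≤ ∑ k : Cl d n, gc L p k x := by
  obtain ⟨k, hk⟩ := exists_inc L hn p x
  have h := gc_eq_one L hn p k (r := 0) hk (by simp)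
  rw [add_zero] at h
  rw [← h]
  exact Finset.single_le_sum (f := fun k => gc L p k x) (fun k _ => gc_nonneg L p k x) (Finset.mem_univ k)

lemma inc_vs (hn : 2 ≤ n) {p : ℝ} {k : Cl d n} {x : E} (h : inc L p k x) : vs L p k x := by
  have hn' : (0:ℝ) < n := by have : (2:ℝ) ≤ n := by exact_mod_cast hn
                             linarith
  intro j
  obtain ⟨m, hm⟩ := h j
  refine ⟨m, hm.trans_lt ?_⟩
  rw [div_lt_div_iff₀ (by positivity) (by positivity)]; nlinarith

open Classical in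
/-- number of cells close to a point -/
lemma card_vs_le (hn : 2 ≤ n) (p : ℝ) (x : E) :
    (Finset.univ.filter (fun k : Cl d n => vs L p k x)).card ≤ 3 ^ (d + 1) := by
  have hn0 : 0 < n := by omega
  have hn' : (0:ℝ) < n := by exact_mod_cast hn0
  have hnz : (n:ℤ) ≠ 0 := by exact_mod_cast hn0.ne'
  set md : ℤ → Fin n := fun K => ⟨(K % (n:ℤ)).toNat, by
    have h1 := Int.emod_nonneg K hnz
    have h2 := Int.emod_lt_of_pos K (by exact_mod_cast hn0 : (0:ℤ) < n)
    omega⟩ with hmd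
  set K0 : Option (Fin d) → ℤ := fun j => ⌊uc L p x j * n - 7 / 4⌋ + 1 with hK0
  set A : Option (Fin d) → Finset (Fin n) := fun j => ({K0 j, K0 j + 1, K0 j + 2} : Finset ℤ).image md with hA
  have hsub : (Finset.univ.filter (fun k : Cl d n => vs L p k x)) ⊆ Fintype.piFinset A := by
    intro k hk
    rw [Finset.mem_filter] at hk
    rw [Fintype.mem_piFinset]
    intro j
    obtain ⟨m, hm⟩ := hk.2 j
    simp only [hA, Finset.mem_image]
    set K : ℤ := (k j : ℕ) + n * m with hK
    have hKr : (K:ℝ) = (k j : ℕ) + n * m := by rw [hK]; push_cast; ring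
    have h1 : |uc L p x j * n - K - 1 / 2| < 5 / 4 := by
      have e : uc L p x j * n - K - 1 / 2 = (uc L p x j - ctr k j - m) * n := by
        rw [hKr]; simp only [ctr]; field_simp; ring
      rw [e, abs_mul, abs_of_pos hn']
      calc |uc L p x j - ctr k j - m| * n < 5 / (4 * n) * n := mul_lt_mul_of_pos_right hm hn'
        _ = 5 / 4 := by field_simp
    rw [abs_lt] at h1
    have a := Int.floor_le (uc L p x j * n - 7 / 4)
    have b := Int.lt_floor_add_one (uc L p x j * n - 7 / 4)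
    have c1 : K0 j ≤ K := by
      rw [hK0]
      show ⌊uc L p x j * n - 7 / 4⌋ + 1 ≤ K
      have : ((⌊uc L p x j * n - 7 / 4⌋ : ℤ) : ℝ) < K := by linarith [h1.2]
      exact_mod_cast this
    have c2 : K < K0 j + 3 := by
      have : (K:ℝ) < ((K0 j + 3 : ℤ) : ℝ) := by
        rw [hK0]; push_cast; linarith [h1.1]
      exact_mod_cast this
    refine ⟨K, ?_, ?_⟩
    · simp only [Finset.mem_insert, Finset.mem_singleton]; omega
    · apply Fin.ext
      show (K % (n:ℤ)).toNat = (k j : ℕ)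
      rw [hK, Int.add_mul_emod_self_left, Int.emod_eq_of_lt (by positivity) (by exact_mod_cast (k j).2)]
      simp
  refine (Finset.card_le_card hsub).trans ?_
  rw [Fintype.card_piFinset]
  calc ∏ j, (A j).card ≤ ∏ _j : Option (Fin d), 3 := by
        apply Finset.prod_le_prod' 
        intro j _
        refine Finset.card_image_le.trans ?_
        exact Finset.card_le_three
    _ = 3 ^ (d + 1) := by simp

/-! ### regularity and periodicity of the bumps -/

lemma uc_contDiff (p : ℝ) (j : Option (Fin d)) {m : ℕ∞} : ContDiff ℝ m (fun x : E => uc L p x j) := by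
  cases j with
  | none =>
    simp only [uc, Lat.y]
    exact (contDiff_const.inner ℝ contDiff_id).sub contDiff_const
  | some i =>
    simp only [uc]
    have h1 : ContDiff ℝ m (fun x : E => (cequiv L).symm x) := (cequiv L).symm.contDiff
    exact contDiff_pi.1 (contDiff_fst.comp h1) i

lemma gc_contDiff (p : ℝ) (k : Cl d n) {m : ℕ∞} : ContDiff ℝ m (gc L p k) := by
  unfold gc
  apply contDiff_prod
  intro j _
  exact (pb_contDiff _ _).comp ((uc_contDiff L p j).sub contDiff_const)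

lemma pb_per_int (a b t : ℝ) (m : ℤ) : pb a b (t + m) = pb a b t := by
  unfold pb
  have : 2 * Real.pi * (t + m) = 2 * Real.pi * t + m * (2 * Real.pi) := by ring
  rw [this, Real.cos_add_int_mul_two_pi]

lemma gc_per {p : ℝ} (k : Cl d n) {γ : E} (hγ : ∀ j, ∃ m : ℤ, uc L 0 γ j = m) (x : E) :
    gc L p k (x + γ) = gc L p k x := by
  unfold gc
  refine Finset.prod_congr rfl fun j _ => ?_
  obtain ⟨m, hm⟩ := hγ j
  rw [uc_add, hm]
  have : uc L p x j + m - ctr k j = (uc L p x j - ctr k j) + m := by ring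
  rw [this, pb_per_int]

lemma int_b (i : Fin d) : ∀ j, ∃ m : ℤ, uc L 0 (L.b i) j = m := by
  intro j
  rw [uc_b]
  split_ifs
  · exact ⟨1, by simp⟩
  · exact ⟨0, by simp⟩

lemma int_g : ∀ j, ∃ m : ℤ, uc L 0 L.g j = m := by
  intro j
  rw [uc_g]
  split_ifs
  · exact ⟨1, by simp⟩
  · exact ⟨0, by simp⟩

/-- time bump -/
def zt (w t : ℝ) : ℝ := pb 0 w t / ∫ s in (0:ℝ)..1, pb 0 w s

lemma pb_cont (a b : ℝ) : Continuous (pb a b) := (pb_contDiff a b (n := 0)).continuous

lemma pb_int_pos {w : ℝ} (hw : 0 < w) (hw' : w ≤ 1 / 2) : 0 < ∫ s in (0:ℝ)..1, pb 0 w s := by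
  apply intervalIntegral.integral_pos one_pos (pb_cont 0 w).continuousOn
  · intro t _; exact pb_nonneg _ _ _
  · refine ⟨0, by simp, ?_⟩
    rw [pb_one le_rfl hw hw' (m := 0) (by simp)]
    exact one_pos

lemma zt_nonneg {w : ℝ} (hw : 0 < w) (hw' : w ≤ 1 / 2) (t : ℝ) : 0 ≤ zt w t :=
  div_nonneg (pb_nonneg _ _ _) (pb_int_pos hw hw').le

lemma zt_cont (w : ℝ) : Continuous (zt w) := (pb_cont 0 w).div_const _

lemma zt_integral {w : ℝ} (hw : 0 < w) (hw' : w ≤ 1 / 2) : ∫ t in (0:ℝ)..1, zt w t = 1 := by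
  unfold zt
  rw [intervalIntegral.integral_div, div_self (pb_int_pos hw hw').ne']

lemma zt_zero {w t : ℝ} (hw : 0 < w) (hw' : w ≤ 1 / 2) (h : ∀ m : ℤ, w ≤ |t - m|) : zt w t = 0 := by
  unfold zt
  rw [pb_zero le_rfl hw hw' h, zero_div]

lemma zt_mid {w t : ℝ} (hw : 0 < w) (hw' : w ≤ 1 / 2) (ht : t ∈ Icc w (1 - w)) : zt w t = 0 := by
  apply zt_zero hw hw'
  intro m
  rcases le_or_gt m 0 with h | h
  · have : (m:ℝ) ≤ 0 := by exact_mod_cast h
    rw [abs_of_nonneg (by linarith [ht.1])]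
    linarith [ht.1]
  · have : (1:ℝ) ≤ m := by exact_mod_cast h
    rw [abs_of_nonpos (by linarith [ht.2])]
    linarith [ht.2]

/-- space-time bump of a cell -/
def gz (p w : ℝ) (k : Cl d n) (x : E) (t : ℝ) : ℝ := gc L p k x * zt w t

lemma gz_isSm (p w : ℝ) (k : Cl d n) : L.IsSm (gz L p w k) := by
  refine ⟨?_, ?_, ?_, ?_⟩
  · have h1 : ContDiff ℝ ∞ (fun q : E × ℝ => gc L p k q.1) := (gc_contDiff L p k).comp contDiff_fst
    have h2 : ContDiff ℝ ∞ (fun q : E × ℝ => zt w q.2) := by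
      unfold zt
      exact ((pb_contDiff 0 w).comp contDiff_snd).div_const _
    exact h1.mul h2
  · intro i x t
    unfold gz; rw [gc_per L k (int_b L i)]
  · intro x t
    unfold gz; rw [gc_per L k (int_g L)]
  · intro x t
    unfold gz zt; rw [pb_per]

lemma gz_nonneg {p w : ℝ} (hw : 0 < w) (hw' : w ≤ 1 / 2) (k : Cl d n) (x : E) (t : ℝ) :
    0 ≤ gz L p w k x t := mul_nonneg (gc_nonneg L p k x) (zt_nonneg hw hw' t)

/-- two points close to the same cell, in the near region, are close modulo the lattice -/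
lemma vs_close {p : ℝ} {k : Cl d n} (hn : 40 ≤ n) {x x' : E} (h : vs L p k x) (h' : vs L p k x')
    (hx : |L.y x - p| ≤ 1 / 8) (hx' : |L.y x' - p| ≤ 1 / 8) :
    ∃ m : Fin d → ℤ, ‖x - (x' + L.lv m)‖ ≤ kap2 L * (5 / (2 * n)) := by
  have hn' : (40:ℝ) ≤ n := by exact_mod_cast hn
  choose m hm using h
  choose m' hm' using h'
  refine ⟨fun i => m (some i) - m' (some i), norm_le_uc L _ fun j => ?_⟩
  have h1 := abs_lt.1 (hm j)
  have h2 := abs_lt.1 (hm' j)
  have e : (5:ℝ) / (2 * n) = 5 / (4 * n) + 5 / (4 * n) := by field_simp; ring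
  have e2 : (5:ℝ) / (4 * n) ≤ 1 / 32 := by
    rw [div_le_div_iff₀ (by positivity) (by norm_num)]; linarith
  rw [e]
  have h3 : uc L 0 (x - (x' + L.lv fun i => m (some i) - m' (some i))) j =
      (uc L p x j - uc L p x' j) - uc L 0 (L.lv fun i => m (some i) - m' (some i)) j := by
    rw [← sub_sub, ← uc_sub L 0, uc_sub L p]
  rw [h3]
  cases j with
  | some i =>
    rw [uc_lv]
    push_cast
    rw [abs_le]; constructor <;> linarith [h1.1, h1.2, h2.1, h2.2]
  | none =>
    have h4 : uc L 0 (L.lv fun i => m (some i) - m' (some i)) none = 0 := by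
      simp only [uc, y_lv, sub_zero]
    rw [h4, sub_zero]
    have h5 : uc L p x none = L.y x - p := rfl
    have h6 : uc L p x' none = L.y x' - p := rfl
    rw [abs_le] at hx hx'
    have h7 : m none = m' none := by
      have a : ((m none - m' none : ℤ) : ℝ) < 1 := by
        push_cast; linarith [h1.1, h1.2, h2.1, h2.2, hx.1, hx.2, hx'.1, hx'.2]
      have b : (-1:ℝ) < ((m none - m' none : ℤ) : ℝ) := by
        push_cast; linarith [h1.1, h1.2, h2.1, h2.2, hx.1, hx.2, hx'.1, hx'.2]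
      have a' : m none - m' none < 1 := by exact_mod_cast a
      have b' : -1 < m none - m' none := by exact_mod_cast b
      omega
    rw [h7] at h1
    rw [abs_le]; constructor <;> linarith [h1.1, h1.2, h2.1, h2.2]

end Esc.H33
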