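import Pool.Agent.helper33.Esc.Ifc

/-!
Kernels of segments with free durations in a finite set of pairs (merged segments).
-/

noncomputable section

namespace Esc.H33

open MeasureTheory Set Filter Topology

variable {Y : Type*} [PseudoMetricSpace Y] {K : Y → Y → ℝ} {C A : Set Y} {B Λ : ℝ}

/-- kernel with durations `q.1 + q.2`, `q` in a finite set of pairs -/
def gI (K : Y → Y → ℝ) (C : Set Y) (I : Finset (ℕ × ℕ)) (c : ℕ × ℕ → ℝ) (z z' : Y) : ℝ :=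
  ⨅ q : I, (kp K C ((q : ℕ × ℕ).1 + (q : ℕ × ℕ).2) z z' + c q)

lemma gI_le {I : Finset (ℕ × ℕ)} (c : ℕ × ℕ → ℝ) {q : ℕ × ℕ} (hq : q ∈ I) (z z' : Y) :
    gI K C I c z z' ≤ kp K C (q.1 + q.2) z z' + c q := by
  unfold gI
  exact ciInf_le (Set.finite_range _).bddBelow (⟨q, hq⟩ : I)

lemma gI_attained {I : Finset (ℕ × ℕ)} (hI : I.Nonempty) (c : ℕ × ℕ → ℝ) (z z' : Y) :
    ∃ q ∈ I, gI K C I c z z' = kp K C (q.1 + q.2) z z' + c q := by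
  haveI : Nonempty I := hI.to_subtype
  obtain ⟨q, hq⟩ := exists_eq_ciInf_of_finite
    (f := fun q : I => (kp K C ((q : ℕ × ℕ).1 + (q : ℕ × ℕ).2) z z' + c q))
  exact ⟨q, q.2, hq.symm⟩

lemma gI_lip (h : KD K C A B Λ) {I : Finset (ℕ × ℕ)} (hI : I.Nonempty) (hI1 : ∀ q ∈ I, 1 ≤ q.1 + q.2)
    (c : ℕ × ℕ → ℝ) {z z' w w' : Y} (hz : z ∈ A) (hz' : z' ∈ A) (hw : w ∈ A) (hw' : w' ∈ A) :
    |gI K C I c z z' - gI K C I c w w'| ≤ Λ * (dist z w + dist z' w') := by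
  obtain ⟨q1, hq1, h1⟩ := gI_attained (K := K) (C := C) hI c z z'
  obtain ⟨q2, hq2, h2⟩ := gI_attained (K := K) (C := C) hI c w w'
  have a1 := gI_le (K := K) (C := C) c hq2 z z'
  have a2 := gI_le (K := K) (C := C) c hq1 w w'
  have b1 := kp_lip h (hI1 q2 hq2) hz hz' hw hw'
  have b2 := kp_lip h (hI1 q1 hq1) hz hz' hw hw'
  rw [abs_le] at *
  constructor
  · linarith [b2.1, b2.2]
  · linarith [b1.1, b1.2]

lemma gI_continuousOn (h : KD K C A B Λ) {I : Finset (ℕ × ℕ)} (hI : I.Nonempty)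
    (hI1 : ∀ q ∈ I, 1 ≤ q.1 + q.2) (c : ℕ × ℕ → ℝ) :
    ContinuousOn (fun q : Y × Y => gI K C I c q.1 q.2) (A ×ˢ A) := by
  have hl : LipschitzOnWith (Real.toNNReal (2 * |Λ|)) (fun q : Y × Y => gI K C I c q.1 q.2) (A ×ˢ A) := by
    apply LipschitzOnWith.of_dist_le_mul
    intro q hq r hr
    rw [Real.dist_eq, Real.coe_toNNReal _ (by positivity)]
    refine (gI_lip h hI hI1 c hq.1 hq.2 hr.1 hr.2).trans ?_
    have h1 : dist q.1 r.1 ≤ dist q r := le_max_left _ _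
    have h2 : dist q.2 r.2 ≤ dist q r := le_max_right _ _
    have h3 : Λ * (dist q.1 r.1 + dist q.2 r.2) ≤ |Λ| * (dist q.1 r.1 + dist q.2 r.2) :=
      mul_le_mul_of_nonneg_right (le_abs_self _) (by positivity)
    have h4 : |Λ| * (dist q.1 r.1 + dist q.2 r.2) ≤ |Λ| * (2 * dist q r) :=
      mul_le_mul_of_nonneg_left (by linarith) (abs_nonneg _)
    linarith
  exact hl.continuousOn

lemma gI_single (F : Finset ℕ) (hF : F.Nonempty) (c : ℕ × ℕ → ℝ) (z z' : Y) :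
    gI K C (F ×ˢ {0}) c z z' = gk K C F (fun T => c (T, 0)) z z' := by
  apply le_antisymm
  · obtain ⟨T, hT, h⟩ := gk_attained (K := K) (C := C) hF (fun T => c (T, 0)) z z'
    rw [h]
    exact gI_le (K := K) (C := C) c (q := (T, 0)) (by simp [hT]) z z'
  · obtain ⟨q, hq, h⟩ := gI_attained (K := K) (C := C) (I := F ×ˢ {0}) (by simpa using hF) c z z'
    rw [h]
    rw [Finset.mem_product, Finset.mem_singleton] at hq
    unfold gk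
    have := ciInf_le (f := fun T : F => (kp K C T z z' + c ((T : ℕ), 0))) (Set.finite_range _).bddBelow
      (⟨q.1, hq.1⟩ : F)
    have hq2 : q = (q.1, 0) := Prod.ext rfl hq.2
    rw [hq.2, hq2]
    simpa using this

/-- merged kernel, right segment exposed -/
lemma gI_left (h : KD K C A B Λ) {F1 F2 : Finset ℕ} (hF1 : F1.Nonempty) (hF2 : F2.Nonempty)
    (h1 : ∀ T ∈ F1, 1 ≤ T) (h2 : ∀ T ∈ F2, 1 ≤ T) (c : ℕ × ℕ → ℝ) (c1 c2 : ℕ → ℝ)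
    (hc : ∀ q, c q = c1 q.1 + c2 q.2) {x z : Y} (hx : x ∈ A) (hz : z ∈ A) :
    ∃ ξ ∈ A, ∃ k : ℝ, gI K C (F1 ×ˢ F2) c x z = k + gk K C F2 c2 ξ z ∧
      ∀ w ∈ A, gI K C (F1 ×ˢ F2) c x w ≤ k + gk K C F2 c2 ξ w := by
  obtain ⟨q, hq, hq'⟩ := gI_attained (K := K) (C := C) (hF1.product hF2) c x z
  rw [Finset.mem_product] at hq
  obtain ⟨ξ, hξ, e⟩ := kp_add_eq h (h1 _ hq.1) (h2 _ hq.2) hx hz
  have hξA := h.sub hξ
  have key : ∀ w ∈ A, gI K C (F1 ×ˢ F2) c x w ≤ (kp K C q.1 x ξ + c1 q.1) + gk K C F2 c2 ξ w := by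
    intro w hw
    obtain ⟨T, hT, e2⟩ := gk_attained (K := K) (C := C) hF2 c2 ξ w
    rw [e2]
    have a := gI_le (K := K) (C := C) c (q := (q.1, T)) (Finset.mem_product.2 ⟨hq.1, hT⟩) x w
    have b := kp_add_le h (h1 _ hq.1) (h2 _ hT) hx hξA hw
    rw [hc] at a
    simp only at a
    linarith
  refine ⟨ξ, hξA, kp K C q.1 x ξ + c1 q.1, le_antisymm (key z hz) ?_, key⟩
  have a : gk K C F2 c2 ξ z ≤ kp K C q.2 ξ z + c2 q.2 := gk_le h c2 hq.2 ξ z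
  rw [hq', e, hc]
  linarith

/-- merged kernel, left segment exposed -/
lemma gI_right (h : KD K C A B Λ) {F1 F2 : Finset ℕ} (hF1 : F1.Nonempty) (hF2 : F2.Nonempty)
    (h1 : ∀ T ∈ F1, 1 ≤ T) (h2 : ∀ T ∈ F2, 1 ≤ T) (c : ℕ × ℕ → ℝ) (c1 c2 : ℕ → ℝ)
    (hc : ∀ q, c q = c1 q.1 + c2 q.2) {x z : Y} (hx : x ∈ A) (hz : z ∈ A) :
    ∃ ξ ∈ A, ∃ k : ℝ, gI K C (F1 ×ˢ F2) c z x = k + gk K C F1 c1 z ξ ∧
      ∀ w ∈ A, gI K C (F1 ×ˢ F2) c w x ≤ k + gk K C F1 c1 w ξ := by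
  obtain ⟨q, hq, hq'⟩ := gI_attained (K := K) (C := C) (hF1.product hF2) c z x
  rw [Finset.mem_product] at hq
  obtain ⟨ξ, hξ, e⟩ := kp_add_eq h (h1 _ hq.1) (h2 _ hq.2) hz hx
  have hξA := h.sub hξ
  have key : ∀ w ∈ A, gI K C (F1 ×ˢ F2) c w x ≤ (kp K C q.2 ξ x + c2 q.2) + gk K C F1 c1 w ξ := by
    intro w hw
    obtain ⟨T, hT, e2⟩ := gk_attained (K := K) (C := C) hF1 c1 w ξ
    rw [e2]
    have a := gI_le (K := K) (C := C) c (q := (T, q.2)) (Finset.mem_product.2 ⟨hT, hq.2⟩) w x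
    have b := kp_add_le h (h1 _ hT) (h2 _ hq.2) hw hξA hx
    rw [hc] at a
    simp only at a
    linarith
  refine ⟨ξ, hξA, kp K C q.2 ξ x + c2 q.2, le_antisymm (key z hz) ?_, key⟩
  have a : gk K C F1 c1 z ξ ≤ kp K C q.1 z ξ + c1 q.1 := gk_le h c1 hq.1 z ξ
  rw [hq', e, hc]
  linarith

/-- realization by a path -/
lemma gI_realize (h : KD K C A B Λ) {I : Finset (ℕ × ℕ)} (hI : I.Nonempty) (c : ℕ × ℕ → ℝ) (Tm : ℕ)
    (hTm : 1 ≤ Tm) (hI1 : ∀ q ∈ I, Tm ≤ q.1 + q.2) {z z' : Y} (hz : z ∈ A) (hz' : z' ∈ A) :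
    ∃ (T : ℕ) (c0 : ℝ) (x : ℕ → Y), Tm ≤ T ∧ x 0 = z ∧ x T = z' ∧ (∀ k ≤ T, x k ∈ A) ∧
      gI K C I c z z' = cost K x T + c0 ∧ cost K x T = kp K C T z z' ∧
      ∀ x' : ℕ → Y, (∀ k ≤ T, x' k ∈ A) → gI K C I c (x' 0) (x' T) ≤ cost K x' T + c0 := by
  obtain ⟨q, hq, hq'⟩ := gI_attained (K := K) (C := C) hI c z z'
  have hq1 : 1 ≤ q.1 + q.2 := hTm.trans (hI1 q hq)
  obtain ⟨x, hx, hxc⟩ := exists_path h hq1 hz hz'
  refine ⟨q.1 + q.2, c q, x, hI1 q hq, hx.1, hx.2.1, ?_, ?_, hxc, ?_⟩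
  · intro k hk
    rcases Nat.eq_zero_or_pos k with h0 | h0
    · rw [h0, hx.1]; exact hz
    · rcases Nat.lt_or_ge k (q.1 + q.2) with h3 | h3
      · exact h.sub (hx.2.2 k h0 h3)
      · have : k = q.1 + q.2 := by omega
        rw [this, hx.2.1]; exact hz'
  · rw [hq', hxc]
  · intro x' hx'
    have a := gI_le (K := K) (C := C) c hq (x' 0) (x' (q.1 + q.2))
    have b := kp_le_cost h hq1 hx'
    linarith

end Esc.H33
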