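import Pool.Agent.helper33.Esc.Defs

/-!
Elementary lemmas on the slow coordinate.
-/

noncomputable section

namespace Esc.H33

open MeasureTheory Set Filter Topology

variable {d : ℕ} {E : Type*} [NormedAddCommGroup E] [InnerProductSpace ℝ E] (L : Lat d E)

lemma y_add (x x' : E) : L.y (x + x') = L.y x + L.y x' := inner_add_right _ _ _

lemma y_sub (x x' : E) : L.y (x - x') = L.y x - L.y x' := inner_sub_right _ _ _

lemma y_neg (x : E) : L.y (-x) = - L.y x := inner_neg_right _ _

lemma y_smul (c : ℝ) (x : E) : L.y (c • x) = c * L.y x := inner_smul_right _ _ _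

lemma y_e : L.y L.e = 1 := by
  unfold Lat.y
  rw [real_inner_self_eq_norm_sq, L.norm_e]; norm_num

lemma y_g : L.y L.g = 1 := L.eg

lemma y_b (i : Fin d) : L.y (L.b i) = 0 := L.eb i

lemma y_sum (θ : Fin d → ℝ) : L.y (∑ i, θ i • L.b i) = 0 := by
  unfold Lat.y
  rw [inner_sum]
  refine Finset.sum_eq_zero fun i _ => ?_
  rw [inner_smul_right, L.eb i, mul_zero]

lemma y_lv (n : Fin d → ℤ) : L.y (L.lv n) = 0 := y_sum L _

lemma y_vel (s : ℝ) : L.y (L.vel s) = 0 := y_sum L _

lemma y_setY (x : E) (η : ℝ) : L.y (L.setY x η) = η := by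
  unfold Lat.setY
  rw [y_add, y_smul, y_e]; ring

lemma setY_self (x : E) : L.setY x (L.y x) = x := by
  unfold Lat.setY; simp

lemma setY_eq (x : E) {η : ℝ} (h : η = L.y x) : L.setY x η = x := by
  rw [h]; exact setY_self L x

lemma y_continuous : Continuous L.y := by
  unfold Lat.y
  exact continuous_const.inner continuous_id

lemma abs_y_sub_le (x x' : E) : |L.y x - L.y x'| ≤ ‖x - x'‖ := by
  rw [← y_sub]
  unfold Lat.y
  calc |inner ℝ L.e (x - x')| ≤ ‖L.e‖ * ‖x - x'‖ := abs_real_inner_le_norm _ _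
    _ = ‖x - x'‖ := by rw [L.norm_e, one_mul]

lemma room_diff {p : ℝ} {z z' : E} (hz : z ∈ L.room p) (hz' : z' ∈ L.room p) : |L.y z - L.y z'| ≤ 2 := by
  have h1 : |L.y z - p| ≤ 7 / 8 := hz
  have h2 : |L.y z' - p| ≤ 7 / 8 := hz'
  rw [abs_le] at *
  constructor <;> linarith [h1.1, h1.2, h2.1, h2.2]

lemma setY_mem_room {p η : ℝ} (x : E) (h : |η - p| ≤ 7 / 8) : L.setY x η ∈ L.room p := by
  show |L.y _ - p| ≤ 7 / 8
  rw [y_setY]; exact h

lemma P_setY (x : E) (η : ℝ) : L.P (L.setY x η) = L.P x := by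
  unfold Lat.P
  rw [y_setY]
  unfold Lat.setY
  rw [sub_smul]; abel

lemma lv_zero : L.lv 0 = 0 := by
  unfold Lat.lv; simp

lemma lv_add (n m : Fin d → ℤ) : L.lv (n + m) = L.lv n + L.lv m := by
  unfold Lat.lv
  rw [← Finset.sum_add_distrib]
  refine Finset.sum_congr rfl fun i _ => ?_
  rw [← add_smul]; push_cast [Pi.add_apply]; rfl

lemma lv_neg (n : Fin d → ℤ) : L.lv (-n) = - L.lv n := by
  unfold Lat.lv
  rw [← Finset.sum_neg_distrib]
  refine Finset.sum_congr rfl fun i _ => ?_
  rw [← neg_smul]; push_cast [Pi.neg_apply]; rfl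

/-- real shifts of a periodic function -/
lemma per_int {f : E → ℝ → ℝ} {b : E} (h : ∀ x t, f (x + b) t = f x t) (k : ℤ) (x : E) (t : ℝ) :
    f (x + (k : ℝ) • b) t = f x t := by
  have hN : ∀ (n : ℕ) (x : E), f (x + (n : ℝ) • b) t = f x t := by
    intro n
    induction n with
    | zero => intro x; simp
    | succ n ih =>
      intro x
      push_cast
      rw [add_smul, one_smul, ← add_assoc, h, ih]
  obtain ⟨n, rfl | rfl⟩ := k.eq_nat_or_neg
  · simpa using hN n x
  · have := hN n (x + ((-(n : ℤ) : ℤ) : ℝ) • b)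
    rw [← this]
    congr 1
    push_cast
    rw [neg_smul]; abel

lemma per_lv {f : E → ℝ → ℝ} (h : ∀ i x t, f (x + L.b i) t = f x t) (n : Fin d → ℤ) (x : E) (t : ℝ) :
    f (x + L.lv n) t = f x t := by
  classical
  unfold Lat.lv
  have : ∀ (I : Finset (Fin d)) (x : E), f (x + ∑ i ∈ I, (n i : ℝ) • L.b i) t = f x t := by
    intro I
    induction I using Finset.induction_on with
    | empty => intro x; simp
    | insert i I hi ih =>
      intro x
      rw [Finset.sum_insert hi, ← add_assoc, ih]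
      exact per_int (h i) (n i) x t
  exact this _ x

/-- fast velocities tend to infinity -/
lemma vel_tendsto (hd : 0 < d) : Tendsto (fun s : ℝ => ‖L.vel s‖) atTop atTop := by
  classical
  -- coordinate functional of b 0 on the span
  set i0 : Fin d := ⟨0, hd⟩ with hi0
  -- linear map θ ↦ ∑ θ i • b i is injective
  set φ : (Fin d → ℝ) →ₗ[ℝ] E := Fintype.linearCombination ℝ L.b with hφ
  have hinj : LinearMap.ker φ = ⊥ := by
    rw [LinearMap.ker_eq_bot]
    exact linearIndependent_iff_injective_fintypeLinearCombination.1 L.li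
  obtain ⟨K, hK, hanti⟩ := φ.exists_antilipschitzWith hinj
  have hle : ∀ θ : Fin d → ℝ, ‖θ‖ ≤ K * ‖φ θ‖ := by
    intro θ
    have := hanti.le_mul_dist θ 0
    simpa [dist_zero_right] using this
  have hvel : ∀ s, L.vel s = φ (fun i => s ^ ((i : ℕ) + 1)) := by
    intro s
    simp [hφ, Fintype.linearCombination_apply, Lat.vel]
  have hKpos : (0 : ℝ) < K := by exact_mod_cast hK
  refine tendsto_atTop_mono (f := fun s : ℝ => s / K) (fun s => ?_) ?_
  · rw [div_le_iff₀ hKpos, hvel s, mul_comm]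
    refine le_trans ?_ (hle _)
    refine le_trans ?_ (norm_le_pi_norm _ i0)
    simp [hi0]
    exact le_abs_self s
  · exact tendsto_id.atTop_div_const hKpos

end Esc.H33
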