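import Pool.Agent.helper33.Esc.Prep
import Pool.Agent.helper37.Esc.Dec
import Pool.Agent.helper1.Esc.Clu
import Pool.Agent.helper1.Esc.Mid
import Pool.Agent.helper1.Esc.Count

/-!
Collected sub-modules of stage_dense.
-/
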