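import Mathlib

/-!
Basic definitions for the escape theorem on flat tori (MP_6acca1_an).
-/

noncomputable section

namespace Esc

open MeasureTheory Set Filter Topology
open scoped ContDiff

/-! ## Controls, trajectories, action, kernel -/

section action

variable {E : Type*} [NormedAddCommGroup E] [InnerProductSpace ℝ E]

/-- admissible controls -/
def Adm (u : ℝ → E) : Prop := StronglyMeasurable u ∧ ∃ C : ℝ, ∀ t, ‖u t‖ ≤ C

/-- trajectory -/
def traj (a : ℝ) (z : E) (u : ℝ → E) (t : ℝ) : E := z + ∫ s in a..t, u s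

/-- action relative to the velocity `v` on `[a,b]` -/
def act (f : E → ℝ → ℝ) (v : E) (a b : ℝ) (z : E) (u : ℝ → E) : ℝ :=
  ∫ t in a..b, (‖u t - v‖ ^ 2 / 2 + f (traj a z u t) t)

/-- minimal action kernel -/
def ker (f : E → ℝ → ℝ) (v : E) (a b : ℝ) (z z' : E) : ℝ :=
  sInf {c | ∃ u : ℝ → E, Adm u ∧ traj a z u b = z' ∧ c = act f v a b z u}

/-- quantitative regularity of a potential -/
structure Good (M : ℝ) (f : E → ℝ → ℝ) : Prop where
  pos : 0 ≤ M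
  cont : Continuous (fun p : E × ℝ => f p.1 p.2)
  bd : ∀ x t, |f x t| ≤ M
  lipx : ∀ x x' t, |f x t - f x' t| ≤ M * ‖x - x'‖
  lipt : ∀ x t t', |f x t - f x t'| ≤ M * |t - t'|

end action

/-! ## The lattice -/

/-- A lattice adapted to a unit vector `e` : `b i` are orthogonal to `e` and `g` has height one. -/
structure Lat (d : ℕ) (E : Type*) [NormedAddCommGroup E] [InnerProductSpace ℝ E] where
  b : Fin d → E
  g : E
  e : E
  norm_e : ‖e‖ = 1
  eb : ∀ i, inner ℝ e (b i) = 0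
  eg : inner ℝ e g = 1
  li : LinearIndependent ℝ b
  span : ∀ x : E, inner ℝ e x = 0 → x ∈ Submodule.span ℝ (Set.range b)

namespace Lat

variable {d : ℕ} {E : Type*} [NormedAddCommGroup E] [InnerProductSpace ℝ E] (L : Lat d E)

/-- the slow coordinate -/
def y (x : E) : ℝ := inner ℝ L.e x

/-- the fast part -/
def P (x : E) : E := x - L.y x • L.e

/-- change the slow coordinate only -/
def setY (x : E) (η : ℝ) : E := x + (η - L.y x) • L.e

/-- lattice vectors of height zero -/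
def lv (n : Fin d → ℤ) : E := ∑ i, (n i : ℝ) • L.b i

/-- fast velocities -/
def vel (s : ℝ) : E := ∑ i : Fin d, s ^ ((i : ℕ) + 1) • L.b i

/-- periodic kernel at speed `s` -/
def kbar (f : E → ℝ → ℝ) (s : ℝ) (z z' : E) : ℝ :=
  ⨅ n : Fin d → ℤ, ker f (L.vel s) 0 1 z (z' + L.lv n)

/-- free part of the periodic kernel -/
def dpart (s : ℝ) (z z' : E) : ℝ := ⨅ n : Fin d → ℤ, ‖L.P (z' - z) + L.lv n - L.vel s‖ ^ 2 / 2

/-- a potential on the torus -/
structure IsPot (f : E → ℝ → ℝ) : Prop where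
  smooth : ContDiff ℝ 2 (fun p : E × ℝ => f p.1 p.2)
  perb : ∀ i x t, f (x + L.b i) t = f x t
  perg : ∀ x t, f (x + L.g) t = f x t
  pert : ∀ x t, f x (t + 1) = f x t

/-- a smooth perturbation on the torus -/
structure IsSm (f : E → ℝ → ℝ) : Prop where
  smooth : ContDiff ℝ ∞ (fun p : E × ℝ => f p.1 p.2)
  perb : ∀ i x t, f (x + L.b i) t = f x t
  perg : ∀ x t, f (x + L.g) t = f x t
  pert : ∀ x t, f x (t + 1) = f x t

/-- average along `b` -/
def avg1 (b : E) (f : E → ℝ → ℝ) : E → ℝ → ℝ := fun x t => ∫ θ in (0:ℝ)..1, f (x + θ • b) t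

/-- average along the last `k` vectors `b (d-1), ..., b (d-k)` -/
def avgN (f : E → ℝ → ℝ) : ℕ → E → ℝ → ℝ
  | 0 => f
  | k + 1 => if h : k < d then avg1 (L.b ⟨d - 1 - k, by omega⟩) (avgN f k) else avgN f k

/-- averaged potential -/
def fbar (f : E → ℝ → ℝ) (η : ℝ) (t : ℝ) : ℝ := L.avgN f d (η • L.e) t

/-- averaged one-dimensional kernel -/
def S (f : E → ℝ → ℝ) (η η' : ℝ) : ℝ := ker (L.fbar f) (0 : ℝ) 0 1 η η'

/-- the room -/
def room (p : ℝ) : Set E := {x | |L.y x - p| ≤ 7 / 8}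

/-- compact fundamental domain of the room -/
def cell (p : ℝ) : Set E :=
  {x | |L.y x - p| ≤ 7 / 8 ∧ ∃ θ : Fin d → ℝ, (∀ i, 0 ≤ θ i ∧ θ i ≤ 1) ∧ L.P x = ∑ i, θ i • L.b i}

/-- minimum of the diagonal of the averaged kernel -/
def ebar (f : E → ℝ → ℝ) : ℝ := ⨅ η : ℝ, L.S f η η

/-- moving frame with velocity `l • g` -/
def mf (l : ℕ) (f : E → ℝ → ℝ) : E → ℝ → ℝ := fun x t => f (x + ((l : ℝ) * t) • L.g) t

/-- Data class (all conditions are `C^0`-open): `c1` the diagonal of the averaged kernel is large away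
from `p`, `c2` the averaged kernel is almost free, `c3` averaging holds for all speeds `≥ M0`. -/
structure Dat (p β Φ M0 : ℝ) (f : E → ℝ → ℝ) : Prop where
  β_pos : 0 < β
  β_le : β ≤ 1 / 1000
  M0_ge : 1 ≤ M0
  c1 : ∃ β', β < β' ∧ ∀ v, 1 / 8 ≤ |v - p| → |v - p| ≤ 7 / 8 → L.ebar f + β' ≤ L.S f v v
  c2 : ∃ κ, κ < 1 / 2000 ∧ ∀ η η', |η' - η| ≤ 2 → |L.S f η η' - Φ - (η' - η) ^ 2 / 2| ≤ κ
  c3 : ∃ κ, κ < β ^ 2 / 200 ∧ ∀ s, M0 ≤ s → ∀ z z', |L.y z - L.y z'| ≤ 2 →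
    |L.kbar f s z z' - L.dpart s z z' - L.S f (L.y z) (L.y z')| ≤ κ

/-- a norm on smooth perturbations, dominating the sup norm -/
structure SmNorm where
  nm : (E → ℝ → ℝ) → ℝ
  sup_le : ∀ G, L.IsSm G → ∀ x t, |G x t| ≤ nm G
  add_le : ∀ G G', L.IsSm G → L.IsSm G' → nm (fun x t => G x t + G' x t) ≤ nm G + nm G'
  smul_le : ∀ (c : ℝ) G, L.IsSm G → nm (fun x t => c * G x t) ≤ |c| * nm G

end Lat

/-! ## Min-plus powers -/

section minplus

variable {Y : Type*}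

/-- `T`-step minimal cost with intermediate points in `C` (junk value for `T = 0`) -/
def kp (K : Y → Y → ℝ) (C : Set Y) : ℕ → Y → Y → ℝ
  | 0 => fun _ _ => 0
  | 1 => K
  | n + 2 => fun z z' => ⨅ x : C, (K z x + kp K C (n + 1) x z')

/-- cost of a sequence -/
def cost (K : Y → Y → ℝ) (x : ℕ → Y) (T : ℕ) : ℝ := ∑ i ∈ Finset.range T, K (x i) (x (i + 1))

/-- `x` is a `T`-step path from `z` to `z'` with intermediate points in `C` -/
def IsPath (C : Set Y) (T : ℕ) (z z' : Y) (x : ℕ → Y) : Prop :=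
  x 0 = z ∧ x T = z' ∧ ∀ i, 0 < i → i < T → x i ∈ C

/-- kernel with free duration in a finite set, with costs -/
def gk (K : Y → Y → ℝ) (C : Set Y) (F : Finset ℕ) (c : ℕ → ℝ) (z z' : Y) : ℝ :=
  ⨅ T : F, (kp K C T z z' + c T)

/-- standing assumptions on a kernel: `A` the (periodic) state space, `C` a compact fundamental domain -/
structure KD [PseudoMetricSpace Y] (K : Y → Y → ℝ) (C A : Set Y) (B Λ : ℝ) : Prop where
  sub : C ⊆ A
  comp : IsCompact C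
  ne : C.Nonempty
  bd : ∀ z ∈ A, ∀ z' ∈ A, |K z z'| ≤ B
  lip : ∀ z ∈ A, ∀ w ∈ A, ∀ z' ∈ A, ∀ w' ∈ A, |K z z' - K w w'| ≤ Λ * (dist z w + dist z' w')
  red : ∀ z ∈ A, ∃ c ∈ C, ∀ x ∈ A, K z x = K c x ∧ K x z = K x c

/-- critical value: `kp K C T + al K C * T` is bounded -/
def al (K : Y → Y → ℝ) (C : Set Y) : ℝ :=
  - ⨆ T : ℕ, (⨅ x : C × C, kp K C (T + 1) x.1 x.2) / ((T + 1 : ℕ) : ℝ)

/-- barrier (Peierls/Mather) -/
def bar (K : Y → Y → ℝ) (C : Set Y) (z z' : Y) : ℝ :=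
  ⨆ S : ℕ, ⨅ j : ℕ, (kp K C (S + j + 1) z z' + al K C * ((S + j + 1 : ℕ) : ℝ))

end minplus

/-! ## Stages -/

namespace Lat

variable {d : ℕ} {E : Type*} [NormedAddCommGroup E] [InnerProductSpace ℝ E] (L : Lat d E)

/-- bound for the number of steps between visits to the near set -/
def R1 (β : ℝ) : ℕ := ⌈10 / β⌉₊ + 2

/-- kernel of a segment: speed `s`, allowed durations `F` with costs `c` -/
def seg (f : E → ℝ → ℝ) (p s : ℝ) (F : Finset ℕ) (c : ℕ → ℝ) (z z' : E) : ℝ :=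
  gk (L.kbar f s) (L.cell p) F c z z'

/-- Stage `m` of the chain: a finite sequence of speeds from `m` to `m+1` with gates. -/
def Stage (p β : ℝ) (m : ℕ) (f : E → ℝ → ℝ) : Prop :=
  ∃ (J : ℕ) (s : ℕ → ℝ) (F : ℕ → Finset ℕ) (c : ℕ → ℕ → ℝ) (D : ℕ → Set E) (δ : ℝ),
    0 < J ∧ 0 < δ ∧ s 0 = m ∧ s J = m + 1 ∧ (∀ i ≤ J, (m : ℝ) ≤ s i ∧ s i ≤ m + 1) ∧
    (∀ i, (F i).Nonempty ∧ ∀ T ∈ F i, 2 * R1 β + 2 ≤ T) ∧
    ∀ i < J, IsCompact (D i) ∧ (D i).Nonempty ∧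
      (∀ z ∈ D i, 1 / 4 ≤ L.y z - p ∧ L.y z - p ≤ 3 / 4) ∧
      ∀ z ∈ frontier (D i), ∃ w ∈ D i, ∀ x ∈ L.room p, ∀ x' ∈ L.room p,
        L.seg f p (s i) (F i) (c i) x w + L.seg f p (s (i + 1)) (F (i + 1)) (c (i + 1)) (w - L.g) x'
            - inner ℝ (L.vel (s (i + 1)) - L.vel (s i)) w + δ ≤
          L.seg f p (s i) (F i) (c i) x z + L.seg f p (s (i + 1)) (F (i + 1)) (c (i + 1)) (z - L.g) x'
            - inner ℝ (L.vel (s (i + 1)) - L.vel (s i)) z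

end Lat

section escape

variable {E : Type*} [NormedAddCommGroup E] [InnerProductSpace ℝ E]

/-- an orbit (defined for all times) of `x'' = grad f` whose speed tends to infinity -/
def Escapes (f : E → ℝ → ℝ) : Prop :=
  ∃ x v : ℝ → E, (∀ t, HasDerivAt x (v t) t) ∧
    (∀ t, HasFDerivAt (fun z => f z t) (innerSL ℝ (deriv v t)) (x t)) ∧ (∀ t, DifferentiableAt ℝ v t) ∧
    Tendsto (fun t => ‖v t‖) atTop atTop

end escape

end Esc
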