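import Pool.Agent.helper33.Esc.DIfc

/-!
Density of the stages.
-/

noncomputable section

namespace Esc

open MeasureTheory Set Filter Topology
open scoped ContDiff
open H33

namespace H33

variable {d : ℕ} {E : Type*} [NormedAddCommGroup E] [InnerProductSpace ℝ E] [FiniteDimensional ℝ E]
  (L : Lat d E) {n : ℕ} {f : E → ℝ → ℝ} {p β Φ M0 M B Λ Vm w ε' : ℝ}

/-- cost of a transition through the gate point `z` -/
def Wg (f : E → ℝ → ℝ) (p s s' : ℝ) (zs z : E) : ℝ :=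
  bar (L.kbar f s) (L.cell p) zs z + bar (L.kbar f s') (L.cell p) (z - L.g) zs

lemma Wg_per {f : E → ℝ → ℝ} (h : ∀ i x t, f (x + L.b i) t = f x t) (p s s' : ℝ) (zs : E) (m : Fin d → ℤ)
    (z : E) : Wg L f p s s' zs (z + L.lv m) = Wg L f p s s' zs z := by
  unfold Wg
  rw [bar_lv_right L h]
  have : z + L.lv m - L.g = (z - L.g) + L.lv m := by abel
  rw [this, bar_lv_left L h]

omit [FiniteDimensional ℝ E] in
lemma O_room {p : ℝ} {z : E} (h : 1 / 8 ≤ L.y z - p ∧ L.y z - p ≤ 7 / 8) : z ∈ L.room p ∧ z - L.g ∈ L.room p := by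
  constructor
  · show |L.y z - p| ≤ 7 / 8
    rw [abs_le]; constructor <;> linarith [h.1, h.2]
  · show |L.y (z - L.g) - p| ≤ 7 / 8
    rw [y_sub, y_g, abs_le]; constructor <;> linarith [h.1, h.2]

lemma Wg_cont {f : E → ℝ → ℝ} {p s s' B Λ : ℝ} (hK : KD (L.kbar f s) (L.cell p) (L.room p) B Λ)
    (hK' : KD (L.kbar f s') (L.cell p) (L.room p) B Λ) {zs : E} (hzs : zs ∈ L.room p) :
    ContinuousOn (Wg L f p s s' zs) {z | 1 / 8 ≤ L.y z - p ∧ L.y z - p ≤ 7 / 8} := by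
  have hl : LipschitzOnWith (Real.toNNReal (2 * |Λ|)) (Wg L f p s s' zs)
      {z | 1 / 8 ≤ L.y z - p ∧ L.y z - p ≤ 7 / 8} := by
    apply LipschitzOnWith.of_dist_le_mul
    intro z hz z' hz'
    rw [Real.dist_eq, Real.coe_toNNReal _ (by positivity)]
    have r1 := O_room L hz
    have r2 := O_room L hz'
    have h1 := bar_lip hK hzs r1.1 hzs r2.1
    have h2 := bar_lip hK' r1.2 hzs r2.2 hzs
    rw [dist_self, zero_add] at h1
    rw [dist_self, add_zero, dist_sub_right] at h2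
    have h3 : Λ * dist z z' ≤ |Λ| * dist z z' := mul_le_mul_of_nonneg_right (le_abs_self _) dist_nonneg
    unfold Wg
    rw [abs_le] at *
    constructor <;> linarith [h1.1, h1.2, h2.1, h2.2]
  exact hl.continuousOn

/-- the counting argument applied to far perturbations -/
theorem exists_good_sigma (hF : FarS L n f p β Φ M0 M B Λ Vm w ε') {J : ℕ} (s : ℕ → ℝ)
    (hs : ∀ i ≤ J, M0 ≤ s i ∧ ‖L.vel (s i)‖ ≤ Vm) {zs : E} (hzs : Nf L f p β zs) {Lc : ℕ} (hLc : 0 < Lc) {h : ℝ}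
    (hh : 0 ≤ h) (hstep : 2 * h < ε' / Lc) (hcount : J * Fintype.card (FC d n) ^ 3 < (Lc + 1) ^ 2) :
    ∃ σ : FC d n → ℝ, Alw ε' σ ∧ ∀ i < J, ∀ μ : ℝ,
      (∀ z, 1 / 8 ≤ L.y z - p → L.y z - p ≤ 7 / 8 → μ ≤ Wg L (pf L f p w σ) p (s i) (s (i + 1)) zs z) →
      ∀ I : Finset (Cl d n), (∀ k ∈ I, ∃ z, inc L p k z ∧ 1 / 4 ≤ L.y z - p ∧ L.y z - p ≤ 3 / 4 ∧
        Wg L (pf L f p w σ) p (s i) (s (i + 1)) zs z ≤ μ + h) →
      I.card ≤ 2 * (2 * (2 * ((Lat.R1 β + 1) * 3 ^ (d + 1))) + 1) := by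
  classical
  have hn48 := hF.hn
  have hn2 : 2 ≤ n := by omega
  set step : ℝ := ε' / Lc with hstepdef
  have hLc' : (0:ℝ) < Lc := by exact_mod_cast hLc
  have hsp : 0 < step := div_pos hF.ε'_pos hLc'
  -- parameters
  set sg : (FC d n → Fin (Lc + 1)) → FC d n → ℝ := fun σ c => ((σ c : ℕ) : ℝ) * step with hsg
  have halw : ∀ σ, Alw ε' (sg σ) := by
    intro σ c
    refine ⟨by positivity, ?_⟩
    have h1 : ((σ c : ℕ) : ℝ) ≤ Lc := by exact_mod_cast Nat.lt_succ_iff.1 (σ c).2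
    calc ((σ c : ℕ) : ℝ) * step ≤ Lc * step := mul_le_mul_of_nonneg_right h1 hsp.le
      _ = ε' := by rw [hstepdef]; field_simp
  have hsgmono : ∀ σ σ' : FC d n → Fin (Lc + 1), σ ≤ σ' → sg σ ≤ sg σ' := by
    intro σ σ' hle c
    have h1 : ((σ c : ℕ) : ℝ) ≤ ((σ' c : ℕ) : ℝ) := by exact_mod_cast hle c
    exact mul_le_mul_of_nonneg_right h1 hsp.le
  have hsi : ∀ i : Fin J, M0 ≤ s i ∧ ‖L.vel (s i)‖ ≤ Vm := fun i => hs i i.2.le
  have hsi' : ∀ i : Fin J, M0 ≤ s (i + 1) ∧ ‖L.vel (s (i + 1))‖ ≤ Vm := fun i => hs (i + 1) i.2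
  -- minimizers in the cells
  have hmin : ∀ (i : Fin J) (σ : FC d n → Fin (Lc + 1)) (c : FC d n), ∃ z ∈ Qc L p c.1, ∀ z' ∈ Qc L p c.1,
      Wg L (pf L f p w (sg σ)) p (s i) (s (i + 1)) zs z ≤ Wg L (pf L f p w (sg σ)) p (s i) (s (i + 1)) zs z' := by
    intro i σ c
    have hc := (Wg_cont L (hF.kd _ (halw σ) (s i)) (hF.kd _ (halw σ) (s (i + 1))) hzs.1).mono
      (fun z (hz : z ∈ Qc L p c.1) => Qc_strip L hn48 c hz)
    obtain ⟨z, hz, hz'⟩ := (Qc_compact L p c.1).exists_isMinOn (Qc_nonempty L p c.1) hc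
    exact ⟨z, hz, fun z' h' => hz' h'⟩
  choose zc hzc hzcmin using hmin
  have hstripc : ∀ (c : FC d n) z, z ∈ Qc L p c.1 → z ∈ L.room p ∧ z - L.g ∈ L.room p :=
    fun c z hz => O_room L (Qc_strip L hn48 c hz)
  -- optimal paths
  have hrep1 : ∀ (i : Fin J) (σ : FC d n → Fin (Lc + 1)) (c : FC d n), ∃ (k : ℕ) (X : ℕ → E), 1 ≤ k ∧
      k ≤ Lat.R1 β ∧ X 0 = zc i σ c - L.g ∧ (∀ i ≤ k, X i ∈ L.room p) ∧ Nf L f p β (X k) ∧
      bar (L.kbar (pf L f p w (sg σ)) (s (i + 1))) (L.cell p) (zc i σ c - L.g) zs =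
        cost (L.kbar (pf L f p w (sg σ)) (s (i + 1))) X k +
          al (L.kbar (pf L f p w (sg σ)) (s (i + 1))) (L.cell p) * k +
          bar (L.kbar (pf L f p w (sg σ)) (s (i + 1))) (L.cell p) (X k) zs := fun i σ c =>
    rep_left L hF (halw σ) (hsi' i).1 (hstripc c _ (hzc i σ c)).2 hzs.1
  have hrep2 : ∀ (i : Fin J) (σ : FC d n → Fin (Lc + 1)) (c : FC d n), ∃ (k : ℕ) (X : ℕ → E), 1 ≤ k ∧
      k ≤ Lat.R1 β ∧ X k = zc i σ c ∧ (∀ i ≤ k, X i ∈ L.room p) ∧ Nf L f p β (X 0) ∧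
      bar (L.kbar (pf L f p w (sg σ)) (s i)) (L.cell p) zs (zc i σ c) =
        bar (L.kbar (pf L f p w (sg σ)) (s i)) (L.cell p) zs (X 0) +
        (cost (L.kbar (pf L f p w (sg σ)) (s i)) X k + al (L.kbar (pf L f p w (sg σ)) (s i)) (L.cell p) * k) :=
    fun i σ c => rep_right L hF (halw σ) (hsi i).1 hzs.1 (hstripc c _ (hzc i σ c)).1
  choose k1 X1 hk1 hk1R hX10 hX1r hN1 he1 using hrep1
  choose k2 X2 hk2 hk2R hX2k hX2r hN2 he2 using hrep2
  set W : Fin J → (FC d n → Fin (Lc + 1)) → FC d n → ℝ := fun i σ c =>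
    Wg L (pf L f p w (sg σ)) p (s i) (s (i + 1)) zs (zc i σ c) with hW
  set vi : Fin J → (FC d n → Fin (Lc + 1)) → FC d n → Finset (FC d n) := fun i σ c =>
    vis L p (X1 i σ c) (k1 i σ c) ∪ vis L p (X2 i σ c) (k2 i σ c) with hvi
  -- growth of W at a fixed point of a cell
  have hgrow : ∀ (i : Fin J) (σ σ' : FC d n → Fin (Lc + 1)) (c : FC d n), σ ≤ σ' → ∀ z ∈ Qc L p c.1,
      Wg L (pf L f p w (sg σ)) p (s i) (s (i + 1)) zs z + (sg σ' c - sg σ c) ≤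
        Wg L (pf L f p w (sg σ')) p (s i) (s (i + 1)) zs z := by
    intro i σ σ' c hle z hz
    have r := hstripc c z hz
    have hincz := Qc_inc L hz
    have hincg : inc L p c.1 (z - L.g) := by
      rw [sub_eq_add_neg]; exact inc_shift L (int_neg_g L) hincz
    have g1 := bar_in_grow L hF (halw σ) (halw σ') (hsgmono _ _ hle) (hsi i).1 (hsi i).2 r.1 hzs
      (A := (sg σ' c - sg σ c) * A1 w)
      (fun z' hz' => kbar_grow_end L hF (halw σ) (halw σ') (hsgmono _ _ hle) (hsi i).2 hz' r.1 c hincz)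
    have g2 := bar_out_grow L hF (halw σ) (halw σ') (hsgmono _ _ hle) (hsi' i).1 (hsi' i).2 r.2 hzs
      (A := (sg σ' c - sg σ c) * A0 w)
      (fun z' hz' => kbar_grow_start L hF (halw σ) (halw σ') (hsgmono _ _ hle) (hsi' i).2 r.2 hz' c hincg)
    have hA := A0_add_A1 hF.w_pos hF.w_lt
    have e : (sg σ' c - sg σ c) = (sg σ' c - sg σ c) * A1 w + (sg σ' c - sg σ c) * A0 w := by
      rw [← mul_add, add_comm (A1 w), hA, mul_one]
    unfold Wg
    linarith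
  have hcountR : Fintype.card (Fin J) * Fintype.card (FC d n) ^ 3 < (Lc + 1) ^ 2 := by
    rw [Fintype.card_fin]; exact hcount
  have hcard : ∀ i σ c, (vi i σ c).card ≤ 2 * ((Lat.R1 β + 1) * 3 ^ (d + 1)) := by
    intro i σ c
    refine (Finset.card_union_le _ _).trans ?_
    have a := card_vis_le (n := n) L hn2 p (X1 i σ c) (k1 i σ c)
    have b := card_vis_le (n := n) L hn2 p (X2 i σ c) (k2 i σ c)
    have a' : (k1 i σ c + 1) * 3 ^ (d + 1) ≤ (Lat.R1 β + 1) * 3 ^ (d + 1) :=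
      Nat.mul_le_mul_right _ (by have := hk1R i σ c; omega)
    have b' : (k2 i σ c + 1) * 3 ^ (d + 1) ≤ (Lat.R1 β + 1) * 3 ^ (d + 1) :=
      Nat.mul_le_mul_right _ (by have := hk2R i σ c; omega)
    omega
  have hmono : ∀ i σ σ' c, σ ≤ σ' → W i σ c ≤ W i σ' c := by
    intro i σ σ' c hle
    have h1 := hgrow i σ σ' c hle (zc i σ' c) (hzc i σ' c)
    have h2 := hzcmin i σ c (zc i σ' c) (hzc i σ' c)
    have h3 := hsgmono σ σ' hle c
    simp only [hW]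
    linarith
  have hindep : ∀ i σ σ' c, σ ≤ σ' → (∀ c' ∈ vi i σ c, σ c' = σ' c') → W i σ' c ≤ W i σ c := by
    intro i σ σ' c hle hag
    have r := hstripc c _ (hzc i σ c)
    have hag1 : ∀ c' ∈ (vis L p (X1 i σ c) (k1 i σ c) : Finset (FC d n)), sg σ c' = sg σ' c' := fun c' hc' => by
      simp only [hsg]; rw [hag c' (Finset.mem_union_left _ hc')]
    have hag2 : ∀ c' ∈ (vis L p (X2 i σ c) (k2 i σ c) : Finset (FC d n)), sg σ c' = sg σ' c' := fun c' hc' => by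
      simp only [hsg]; rw [hag c' (Finset.mem_union_right _ hc')]
    have c1 := cost_vis L hF (halw σ) (halw σ') (hsi' i).2 (hX1r i σ c) hag1
    have c2 := cost_vis L hF (halw σ) (halw σ') (hsi i).2 (hX2r i σ c) hag2
    have hK1 := hF.kd _ (halw σ') (s (i + 1))
    have hK2 := hF.kd _ (halw σ') (s i)
    have e1 := he1 i σ c
    have e2 := he2 i σ c
    rw [bar_near L hF (halw σ) (hsi' i).1 (hsi' i).2 (hN1 i σ c) hzs,
      ← bar_near L hF (halw σ') (hsi' i).1 (hsi' i).2 (hN1 i σ c) hzs,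
      al_near L hF (halw σ) (hsi' i).1 (hsi' i).2, ← al_near L hF (halw σ') (hsi' i).1 (hsi' i).2, c1] at e1
    rw [bar_near L hF (halw σ) (hsi i).1 (hsi i).2 hzs (hN2 i σ c),
      ← bar_near L hF (halw σ') (hsi i).1 (hsi i).2 hzs (hN2 i σ c),
      al_near L hF (halw σ) (hsi i).1 (hsi i).2, ← al_near L hF (halw σ') (hsi i).1 (hsi i).2, c2] at e2
    have a1 := bar_left_le hK1 (hk1 i σ c) r.2 (hX1r i σ c _ le_rfl) hzs.1
    have b1 := kp_le_cost hK1 (x := X1 i σ c) (hk1 i σ c) (hX1r i σ c)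
    rw [hX10] at b1
    have a2 := bar_right_le hK2 (hk2 i σ c) hzs.1 (hX2r i σ c 0 (by omega)) r.1
    have b2 := kp_le_cost hK2 (x := X2 i σ c) (hk2 i σ c) (hX2r i σ c)
    rw [hX2k] at b2
    have m1 := hzcmin i σ' c _ (hzc i σ c)
    simp only [hW]
    refine m1.trans ?_
    unfold Wg
    linarith
  have hslope : ∀ i σ σ' c, σ ≤ σ' → W i σ c + (((σ' c : ℕ) : ℝ) - ((σ c : ℕ) : ℝ)) * step ≤ W i σ' c := by
    intro i σ σ' c hle
    have h1 := hgrow i σ σ' c hle (zc i σ' c) (hzc i σ' c)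
    have h2 := hzcmin i σ c (zc i σ' c) (hzc i σ' c)
    simp only [hW]
    simp only [hsg] at h1
    linarith
  obtain ⟨σ, hσ⟩ := counting (I := Fin J) (Fc := FC d n) (2 * ((Lat.R1 β + 1) * 3 ^ (d + 1))) Lc h step hh hstep
    W vi hcard hmono hindep hslope hcountR
  refine ⟨sg σ, halw σ, fun i hi μ hμ I hI => ?_⟩
  have h1 := hσ ⟨i, hi⟩ μ (fun c => by
    have hz := Qc_strip L hn48 c (hzc ⟨i, hi⟩ σ c)
    exact hμ _ hz.1 hz.2)
  refine le_trans ?_ h1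
  have hIfar : ∀ k ∈ I, (n ≤ 4 * ((k none : ℕ) + 1) ∧ 4 * (k none : ℕ) ≤ 3 * n) := by
    intro k hk
    obtain ⟨z, hz, hz1, hz2, _⟩ := hI k hk
    exact (touched_rep L hn48 hz hz1 hz2).1
  apply Finset.card_le_card_of_surjOn (fun c : FC d n => c.1)
  intro k hk
  obtain ⟨z, hz, hz1, hz2, hzW⟩ := hI k hk
  obtain ⟨hfar, m, hm⟩ := touched_rep L hn48 hz hz1 hz2
  refine ⟨(⟨k, hfar⟩ : FC d n), Finset.mem_coe.2 (Finset.mem_filter.2 ⟨Finset.mem_univ _, ?_⟩), rfl⟩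
  have h2 := hzcmin ⟨i, hi⟩ σ ⟨k, hfar⟩ _ hm
  rw [Wg_per L (hF.pot _ (halw σ)).perb] at h2
  exact h2.trans hzW

end H33

end Esc
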