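import Pool.Agent.helper33.Esc.Dense

/-!
Density of the stages: assembly.
-/

noncomputable section

namespace Esc

open MeasureTheory Set Filter Topology
open scoped ContDiff
open H33

namespace H33

variable {d : ℕ} {E : Type*} [NormedAddCommGroup E] [InnerProductSpace ℝ E] [FiniteDimensional ℝ E]
  (L : Lat d E) {n : ℕ} {f : E → ℝ → ℝ} {p β Φ M0 M B Λ Vm w ε' : ℝ}

omit [FiniteDimensional ℝ E] in
lemma isSm_isPot {G : E → ℝ → ℝ} (h : L.IsSm G) : L.IsPot G :=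
  ⟨h.smooth.of_le (by norm_cast), h.perb, h.perg, h.pert⟩

omit [FiniteDimensional ℝ E] in
lemma isPot_add {f G : E → ℝ → ℝ} (hf : L.IsPot f) (h : L.IsPot G) : L.IsPot (fun x t => f x t + G x t) :=
  ⟨hf.smooth.add h.smooth, fun i x t => by rw [hf.perb, h.perb], fun x t => by rw [hf.perg, h.perg],
    fun x t => by rw [hf.pert, h.pert]⟩

/-- small time scale -/
lemma exists_w (a b c r : ℝ) (hr : 0 < r) :
    ∃ w : ℝ, 0 < w ∧ w < 1 / 2 ∧ a * (w * b + Real.sqrt (c * w)) ≤ r := by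
  have h1 : Continuous (fun w : ℝ => a * (w * b + Real.sqrt (c * w))) := by fun_prop
  have h2 : Tendsto (fun w : ℝ => a * (w * b + Real.sqrt (c * w))) (𝓝[>] 0) (𝓝 0) := by
    have := (h1.tendsto 0).mono_left (nhdsWithin_le_nhds (s := Ioi (0:ℝ)))
    simpa using this
  have h3 : ∀ᶠ w in 𝓝[>] (0:ℝ), a * (w * b + Real.sqrt (c * w)) < r := h2.eventually_lt_const hr
  have h4 : ∀ᶠ w in 𝓝[>] (0:ℝ), w < 1 / 2 :=
    mem_nhdsWithin_of_mem_nhds (Iio_mem_nhds (by norm_num))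
  have h5 : ∀ᶠ w in 𝓝[>] (0:ℝ), 0 < w := self_mem_nhdsWithin
  obtain ⟨w, h6, h7, h8⟩ := (h3.and (h4.and h5)).exists
  exact ⟨w, h8, h7, h6.le⟩

omit [FiniteDimensional ℝ E] in
/-- the gate inequality from decoupled barriers -/
lemma gate_ineq {f : E → ℝ → ℝ} {p s s' δ η η2 h κ : ℝ} {F F' : Finset ℕ} {c c' : ℕ → ℝ} {zs z0 z x x' : E}
    (hz0 : 1 / 8 ≤ L.y z0 - p ∧ L.y z0 - p ≤ 7 / 8) (hz : 1 / 8 ≤ L.y z - p ∧ L.y z - p ≤ 7 / 8)
    (hx : x ∈ L.room p) (hx' : x' ∈ L.room p) (hzs : zs ∈ L.room p)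
    (hw : ∀ z ∈ L.room p, ∀ z' ∈ L.room p,
      |L.seg f p s F c z z' - bar (L.kbar f s) (L.cell p) z z'| ≤ η2)
    (hw' : ∀ z ∈ L.room p, ∀ z' ∈ L.room p,
      |L.seg f p s' F' c' z z' - bar (L.kbar f s') (L.cell p) z z'| ≤ η2)
    (hd : ∀ z ∈ L.room p, ∀ z' ∈ L.room p, ∀ w ∈ L.room p, ∀ w' ∈ L.room p,
      |bar (L.kbar f s) (L.cell p) z z' + bar (L.kbar f s) (L.cell p) w w'
        - bar (L.kbar f s) (L.cell p) z w' - bar (L.kbar f s) (L.cell p) w z'| ≤ η)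
    (hd' : ∀ z ∈ L.room p, ∀ z' ∈ L.room p, ∀ w ∈ L.room p, ∀ w' ∈ L.room p,
      |bar (L.kbar f s') (L.cell p) z z' + bar (L.kbar f s') (L.cell p) w w'
        - bar (L.kbar f s') (L.cell p) z w' - bar (L.kbar f s') (L.cell p) w z'| ≤ η)
    (hW : Wg L f p s s' zs z0 + h < Wg L f p s s' zs z)
    (hκ : |inner ℝ (L.vel s' - L.vel s) (z - z0)| ≤ κ) (hδ : δ + 2 * η + 4 * η2 + κ ≤ h) :
    L.seg f p s F c x z0 + L.seg f p s' F' c' (z0 - L.g) x' - inner ℝ (L.vel s' - L.vel s) z0 + δ ≤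
      L.seg f p s F c x z + L.seg f p s' F' c' (z - L.g) x' - inner ℝ (L.vel s' - L.vel s) z := by
  have r0 := O_room L hz0
  have r := O_room L hz
  have a1 := abs_le.1 (hw x hx z0 r0.1)
  have a2 := abs_le.1 (hw x hx z r.1)
  have a3 := abs_le.1 (hw' _ r0.2 x' hx')
  have a4 := abs_le.1 (hw' _ r.2 x' hx')
  have b1 := abs_le.1 (hd x hx z r.1 zs hzs z0 r0.1)
  have b2 := abs_le.1 (hd' _ r.2 x' hx' _ r0.2 zs hzs)
  rw [inner_sub_right] at hκ
  have k := abs_le.1 hκ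
  unfold Wg at hW
  linarith [a1.1, a1.2, a2.1, a2.2, a3.1, a3.2, a4.1, a4.2, b1.1, b1.2, b2.1, b2.2, k.1, k.2]

end H33

open H33

variable {d : ℕ} {E : Type*} [NormedAddCommGroup E] [InnerProductSpace ℝ E] [FiniteDimensional ℝ E]
  (L : Lat d E)

/-- a far perturbation setup: everything except the number of speeds -/
theorem H33.exists_far_setup {p β Φ M0 Vm : ℝ} {f : E → ℝ → ℝ} (hf : L.IsPot f) (hD : L.Dat p β Φ M0 f)
    (n : ℕ) (hn : 48 ≤ n) (N : L.SmNorm) {ε : ℝ} (hε : 0 < ε) :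
    ∃ M B Λ w ε' ε1 : ℝ, 0 < ε' ∧ 0 < ε1 ∧ 0 < w ∧ w < 1 / 2 ∧ ε1 ≤ ε / 2 ∧
      (∀ f1 : E → ℝ → ℝ, (∃ G, L.IsSm G ∧ Good ε1 G ∧ f1 = fun x t => f x t + G x t) →
        FarS L n f1 p β Φ M0 M B Λ Vm w ε') ∧
      ∀ σ : FC d n → ℝ, Alw ε' σ → L.IsSm (fun x t => ∑ c : FC d n, σ c * gz L p w c.1 x t) ∧
        N.nm (fun x t => ∑ c : FC d n, σ c * gz L p w c.1 x t) ≤ ε / 2 := by
  obtain ⟨Mf, hMf⟩ := isPot_good L hf
  obtain ⟨B, Λ, hB, hΛ, hKD⟩ := kd_kbar L (Mf + 1)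
  have hMf0 := hMf.pos
  have hn0 : (0:ℝ) < n := by
    have : (48:ℝ) ≤ n := by exact_mod_cast hn
    linarith
  obtain ⟨w, hw0, hw1, hw2⟩ := exists_w (kap L) Vm (2 * (B + (Mf + 1) + 1)) (1 / (8 * n)) (by positivity)
  obtain ⟨ρ0, hρ0, hρ⟩ := dat_open L hf hD
  have hβ := hD.β_pos
  -- bounds of the bumps
  have hsm : ∀ c : FC d n, L.IsSm (gz L p w c.1) := fun c => gz_isSm L p w c.1
  choose Mc hMc using fun c : FC d n => isPot_good L (isSm_isPot L (hsm c))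
  set Kg : ℝ := ∑ c : FC d n, (Mc c + N.nm (gz L p w c.1)) + 1 with hKg
  have hterm : ∀ c : FC d n, 0 ≤ Mc c + N.nm (gz L p w c.1) := fun c =>
    add_nonneg (hMc c).pos (nm_nonneg L N (hsm c))
  have hKg1 : 1 ≤ Kg := by
    have : 0 ≤ ∑ c : FC d n, (Mc c + N.nm (gz L p w c.1)) := Finset.sum_nonneg fun c _ => hterm c
    linarith
  have hKgc : ∀ c : FC d n, Mc c + N.nm (gz L p w c.1) ≤ Kg := fun c => by
    have := Finset.single_le_sum (f := fun c : FC d n => Mc c + N.nm (gz L p w c.1)) (fun c _ => hterm c)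
      (Finset.mem_univ c)
    linarith
  have hgood : ∀ c : FC d n, Good Kg (gz L p w c.1) := fun c =>
    good_mono (hMc c) (by have := hKgc c; have := nm_nonneg L N (hsm c); linarith)
  have hnm : ∀ c : FC d n, N.nm (gz L p w c.1) ≤ Kg := fun c => by
    have := hKgc c; have := (hMc c).pos; linarith
  set NF : ℝ := ((Fintype.card (FC d n) : ℕ) : ℝ) with hNF
  have hNF0 : 0 ≤ NF := by rw [hNF]; positivity
  set a : ℝ := min (ε / 2) (min (ρ0 / 2) (min (β / 8) (1 / 2))) with ha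
  have ha0 : 0 < a := by
    rw [ha]; exact lt_min (by linarith) (lt_min (by linarith) (lt_min (by linarith) (by norm_num)))
  have ha1 : a ≤ ε / 2 := min_le_left _ _
  have ha2 : a ≤ ρ0 / 2 := (min_le_right _ _).trans (min_le_left _ _)
  have ha3 : a ≤ β / 8 := (min_le_right _ _).trans ((min_le_right _ _).trans (min_le_left _ _))
  have ha4 : a ≤ 1 / 2 := (min_le_right _ _).trans ((min_le_right _ _).trans (min_le_right _ _))
  set ε' : ℝ := a / ((NF + 1) * Kg) with hε'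
  have hε'0 : 0 < ε' := by rw [hε']; positivity
  have hsz : NF * (ε' * Kg) ≤ a := by
    have e : ε' * Kg = a / (NF + 1) := by rw [hε']; field_simp
    rw [e]
    have : NF * (a / (NF + 1)) = a * (NF / (NF + 1)) := by ring
    rw [this]
    have h1 : NF / (NF + 1) ≤ 1 := by rw [div_le_one (by linarith)]; linarith
    nlinarith
  have hsumgood : ∀ σ : FC d n → ℝ, Alw ε' σ → Good a (fun x t => ∑ c : FC d n, σ c * gz L p w c.1 x t) := by
    intro σ hσ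
    have h1 := good_sum Finset.univ σ (fun c : FC d n => gz L p w c.1) (K := Kg) (ε' := ε') (by linarith)
      (fun c _ => hgood c) (fun c _ => hσ c)
    exact good_mono h1 (by rw [Finset.card_univ]; exact hsz)
  have hsumsm : ∀ σ : FC d n → ℝ, L.IsSm (fun x t => ∑ c : FC d n, σ c * gz L p w c.1 x t) := fun σ =>
    isSm_sum L Finset.univ σ (fun c : FC d n => gz L p w c.1) (fun c _ => hsm c)
  set ε1 : ℝ := min (ε / 2) (min (ρ0 / 2) (1 / 2)) with hε1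
  have hε10 : 0 < ε1 := by rw [hε1]; exact lt_min (by linarith) (lt_min (by linarith) (by norm_num))
  have hε1a : ε1 ≤ ε / 2 := min_le_left _ _
  have hε1b : ε1 ≤ ρ0 / 2 := (min_le_right _ _).trans (min_le_left _ _)
  have hε1c : ε1 ≤ 1 / 2 := (min_le_right _ _).trans (min_le_right _ _)
  refine ⟨Mf + 1, B, Λ, w, ε', ε1, hε'0, hε10, hw0, hw1, hε1a, ?_, fun σ hσ => ⟨hsumsm σ, ?_⟩⟩
  · rintro f1 ⟨G, hG, hGg, rfl⟩
    have hpot1 : L.IsPot (fun x t => f x t + G x t) := isPot_add L hf (isSm_isPot L hG)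
    have hpot : ∀ σ : FC d n → ℝ, L.IsPot (pf L (fun x t => f x t + G x t) p w σ) := fun σ =>
      isPot_add L hpot1 (isSm_isPot L (hsumsm σ))
    have hgd : ∀ σ : FC d n → ℝ, Alw ε' σ → Good (Mf + 1) (pf L (fun x t => f x t + G x t) p w σ) := by
      intro σ hσ
      exact good_mono (good_add (good_add hMf hGg) (hsumgood σ hσ)) (by linarith)
    exact
      { hn := hn
        M_nonneg := by linarith
        B_nonneg := hB.le
        w_pos := hw0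
        w_lt := hw1
        hw := hw2
        ε'_pos := hε'0
        kd := fun σ hσ s => hKD _ (hgd σ hσ) (hpot σ).perb s p
        good := hgd
        dat := fun σ hσ => by
          apply hρ _ (hpot σ)
          intro x t
          have h1 := abs_le.1 (hGg.bd x t)
          have h2 := abs_le.1 ((hsumgood σ hσ).bd x t)
          have e : f x t - pf L (fun x t => f x t + G x t) p w σ x t =
            -(G x t + ∑ c : FC d n, σ c * gz L p w c.1 x t) := by unfold pf; ring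
          rw [e, abs_neg, abs_le]
          constructor <;> linarith [h1.1, h1.2, h2.1, h2.2]
        pot := fun σ _ => hpot σ
        close := fun σ hσ x t => by
          have h2 := (hsumgood σ hσ).bd x t
          have e : pf L (fun x t => f x t + G x t) p w σ x t - (f x t + G x t) =
            ∑ c : FC d n, σ c * gz L p w c.1 x t := by unfold pf; ring
          rw [e]
          exact h2.trans ha3 }
  · have h1 := nm_sum L N Finset.univ σ (fun c : FC d n => gz L p w c.1) (K := Kg) (ε' := ε') (by linarith)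
      (fun c _ => hsm c) (fun c _ => hnm c) (fun c _ => hσ c)
    refine h1.trans ?_
    rw [Finset.card_univ]
    exact hsz.trans ha1


theorem stage_dense (hd : 0 < d) {p β Φ M0 : ℝ} {f : E → ℝ → ℝ} (hf : L.IsPot f)
    (hD : L.Dat p β Φ M0 f) {m : ℕ} (hm : M0 ≤ m) (N : L.SmNorm) {ε : ℝ} (hε : 0 < ε) :
    ∃ G, L.IsSm G ∧ N.nm G < ε ∧ L.Stage p β m (fun x t => f x t + G x t) := by
  -- constants
  obtain ⟨R, hR⟩ : ∃ R : ℕ, R = Lat.R1 β := ⟨_, rfl⟩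
  obtain ⟨N0, hN0⟩ : ∃ N0 : ℕ, N0 = 2 * (2 * (2 * ((R + 1) * 3 ^ (d + 1))) + 1) := ⟨_, rfl⟩
  obtain ⟨n, hn⟩ : ∃ n : ℕ, n = 48 * (N0 + 2) := ⟨_, rfl⟩
  have hn48 : 48 ≤ n := by omega
  have hn16 : 16 * (N0 + 2) ≤ n := by omega
  have hn4 : 4 ∣ n := ⟨12 * (N0 + 2), by omega⟩
  obtain ⟨Cv, hCv, hv1, hv2⟩ := vel_bounds L (m : ℝ) (m + 1)
  obtain ⟨M, B, Λ, w, ε', ε1, hε', hε1, hw0, hw1, hε1a, hfar, hsum⟩ :=
    exists_far_setup (Vm := Cv) L hf hD n hn48 N hε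
  obtain ⟨Cs, hCs, hspeed⟩ := kbar_speed L M
  have hk2 := kap2_nonneg L
  obtain ⟨C1, hC1⟩ : ∃ C1 : ℝ, C1 = 2 * R * (Cs * Cv) + Cv * kap2 L + 1 := ⟨_, rfl⟩
  have hC1p : 0 < C1 := by
    have : 0 ≤ 2 * (R : ℝ) * (Cs * Cv) := by positivity
    have : 0 ≤ Cv * kap2 L := by positivity
    linarith
  obtain ⟨NF, hNF⟩ : ∃ NF : ℕ, NF = Fintype.card (FC d n) := ⟨_, rfl⟩
  obtain ⟨q, hq⟩ := exists_nat_gt (max (2 * C1 * ((NF : ℝ) + 1) ^ 2 / ε') (max Cv 1))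
  have hq1 : 2 * C1 * ((NF : ℝ) + 1) ^ 2 / ε' < q := (le_max_left _ _).trans_lt hq
  have hq2 : Cv < q := (le_max_left _ _).trans_lt ((le_max_right _ _).trans_lt hq)
  have hq3 : (1:ℝ) < q := (le_max_right _ _).trans_lt ((le_max_right _ _).trans_lt hq)
  have hq0 : 0 < q := by
    have : (0:ℝ) < q := by linarith
    exact_mod_cast this
  obtain ⟨J, hJ⟩ : ∃ J : ℕ, J = q ^ 2 := ⟨_, rfl⟩
  have hJ0 : 0 < J := by rw [hJ]; positivity
  have hJr : (J : ℝ) = (q : ℝ) ^ 2 := by rw [hJ]; push_cast; ring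
  have hJp : (0:ℝ) < J := by exact_mod_cast hJ0
  obtain ⟨Lc, hLc⟩ : ∃ Lc : ℕ, Lc = q * (NF + 1) ^ 2 := ⟨_, rfl⟩
  have hLc0 : 0 < Lc := by rw [hLc]; positivity
  have hLcr : (Lc : ℝ) = q * ((NF : ℝ) + 1) ^ 2 := by rw [hLc]; push_cast; ring
  -- speeds
  obtain ⟨s, hs⟩ : ∃ s : ℕ → ℝ, ∀ i, s i = (m : ℝ) + (i : ℝ) / J := ⟨fun i => (m : ℝ) + (i : ℝ) / J, fun _ => rfl⟩
  have hsb : ∀ i ≤ J, (m : ℝ) ≤ s i ∧ s i ≤ m + 1 := by
    intro i hi
    have h1 : (0:ℝ) ≤ (i : ℝ) / J := by positivity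
    have h2 : (i : ℝ) / J ≤ 1 := by
      rw [div_le_one hJp]; exact_mod_cast hi
    rw [hs]
    constructor <;> linarith
  have hsM : ∀ i ≤ J, M0 ≤ s i := fun i hi => hm.trans (hsb i hi).1
  have hsd : ∀ i < J, ‖L.vel (s (i + 1)) - L.vel (s i)‖ ≤ Cv / J := by
    intro i hi
    have h1 := hv2 _ (hsb (i + 1) hi) _ (hsb i hi.le)
    have h2 : s (i + 1) - s i = 1 / J := by rw [hs, hs]; push_cast; ring
    rw [h2, abs_of_nonneg (by positivity)] at h1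
    calc _ ≤ _ := h1
      _ = Cv / J := by ring
  have hCJ : Cv / J ≤ 1 := by
    rw [div_le_one hJp, hJr]
    nlinarith
  -- approximate decoupling
  obtain ⟨ηD, hηD⟩ : ∃ ηD : ℝ, ηD = 1 / (128 * J) := ⟨_, rfl⟩
  have hηDp : 0 < ηD := by rw [hηD]; positivity
  obtain ⟨G1, hG1, hG1n, hG1g, hdec⟩ := dec_dense_fin L hd hf hD s J hsM (η := ηD) hηDp N hε1
  set f1 : E → ℝ → ℝ := fun x t => f x t + G1 x t with hf1
  have hF : FarS L n f1 p β Φ M0 M B Λ Cv w ε' := hfar f1 ⟨G1, hG1, hG1g, rfl⟩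
  have hpot1 : L.IsPot f1 := isPot_add L hf (isSm_isPot L hG1)
  obtain ⟨zs, hzs⟩ := exists_nf L hF
  -- good parameters
  obtain ⟨h, hh⟩ : ∃ h : ℝ, h = C1 / J := ⟨_, rfl⟩
  have hh0 : 0 ≤ h := by rw [hh]; positivity
  have hstep : 2 * h < ε' / Lc := by
    rw [hh, hLcr, hJr]
    have hqp : (0:ℝ) < q := by linarith
    have hNp : (0:ℝ) < ((NF : ℝ) + 1) ^ 2 := by positivity
    rw [div_lt_iff₀ hε'] at hq1
    have e1 : 2 * (C1 / (q : ℝ) ^ 2) = (2 * C1) / (q : ℝ) ^ 2 := by ring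
    rw [e1, div_lt_div_iff₀ (by positivity) (by positivity)]
    have e2 : 2 * C1 * (q * ((NF : ℝ) + 1) ^ 2) = q * (2 * C1 * ((NF : ℝ) + 1) ^ 2) := by ring
    have e3 : ε' * (q : ℝ) ^ 2 = q * (q * ε') := by ring
    rw [e2, e3]
    exact mul_lt_mul_of_pos_left hq1 hqp
  have hcount : J * Fintype.card (FC d n) ^ 3 < (Lc + 1) ^ 2 := by
    rw [← hNF, hJ, hLc]
    have h1 : NF ^ 3 ≤ (NF + 1) ^ 4 :=
      (Nat.pow_le_pow_left (Nat.le_succ NF) 3).trans (Nat.pow_le_pow_right (Nat.succ_pos NF) (by norm_num))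
    calc q ^ 2 * NF ^ 3 ≤ q ^ 2 * (NF + 1) ^ 4 := Nat.mul_le_mul_left _ h1
      _ = (q * (NF + 1) ^ 2) ^ 2 := by ring
      _ < (q * (NF + 1) ^ 2 + 1) ^ 2 := Nat.pow_lt_pow_left (Nat.lt_succ_self _) (by norm_num)
  obtain ⟨σ, hσ, hgood⟩ := exists_good_sigma (L := L) hF (J := J) s
    (fun i hi => ⟨hsM i hi, hv1 _ (hsb i hi)⟩) hzs hLc0 hh0 hstep hcount
  rw [← hR, ← hN0] at hgood
  obtain ⟨f2, hf2⟩ : ∃ f2 : E → ℝ → ℝ, f2 = pf L f1 p w σ := ⟨_, rfl⟩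
  rw [← hf2] at hgood
  have hpot2 : L.IsPot f2 := by rw [hf2]; exact hF.pot σ hσ
  have hdat2 : L.Dat p β Φ M0 f2 := by rw [hf2]; exact hF.dat σ hσ
  have hgood2 : Good M f2 := by rw [hf2]; exact hF.good σ hσ
  have hkd2 : ∀ s, KD (L.kbar f2 s) (L.cell p) (L.room p) B Λ := by rw [hf2]; exact hF.kd σ hσ
  -- decoupled barriers
  have hbar : ∀ i ≤ J, ∀ z ∈ L.room p, ∀ z' ∈ L.room p, ∀ w ∈ L.room p, ∀ w' ∈ L.room p,
      |bar (L.kbar f2 (s i)) (L.cell p) z z' + bar (L.kbar f2 (s i)) (L.cell p) w w'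
        - bar (L.kbar f2 (s i)) (L.cell p) z w' - bar (L.kbar f2 (s i)) (L.cell p) w z'| ≤ 4 * ηD :=
    fun i hi => by
      rw [hf2]
      exact dec_far L hF hσ (hsM i hi) (hv1 _ (hsb i hi)) (dec_bar L hpot1 (hdec i hi))
  -- windows
  have hwin : ∀ i : ℕ, ∃ F : Finset ℕ, F.Nonempty ∧ (∀ T ∈ F, 2 * R + 2 ≤ T) ∧
      ∀ z ∈ L.room p, ∀ z' ∈ L.room p,
      |gk (L.kbar f2 (s i)) (L.cell p) F (fun T => al (L.kbar f2 (s i)) (L.cell p) * T) z z' -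
        bar (L.kbar f2 (s i)) (L.cell p) z z'| ≤ 1 / (16 * J) := fun i =>
    bar_win (hkd2 (s i)) (by positivity) (2 * R + 2)
  choose F hFne hFT hFw using hwin
  -- middle points
  obtain ⟨δJ, hδJ⟩ : ∃ δJ : ℝ, δJ = Cs * (Cv / J) := ⟨_, rfl⟩
  have hdiff : ∀ i < J, ∀ z ∈ L.room p, ∀ z' ∈ L.room p,
      |L.kbar f2 (s i) z z' - L.kbar f2 (s (i + 1)) z z'| ≤ δJ := by
    intro i hi z hz z' hz'
    have h1 := hsd i hi
    rw [norm_sub_rev] at h1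
    have h2 : |L.y z - L.y z'| ≤ 2 := by
      have a : |L.y z - p| ≤ 7 / 8 := hz
      have b : |L.y z' - p| ≤ 7 / 8 := hz'
      rw [abs_le] at a b ⊢
      constructor <;> linarith [a.1, a.2, b.1, b.2]
    refine (hspeed f2 hgood2 _ _ (h1.trans hCJ) z z' h2).trans ?_
    rw [hδJ]
    exact mul_le_mul_of_nonneg_left h1 hCs.le
  have hmid : ∀ i : ℕ, ∃ z0 : E, i < J → (3 / 8 ≤ L.y z0 - p ∧ L.y z0 - p ≤ 5 / 8 ∧
      ∀ z, 1 / 8 ≤ L.y z - p → L.y z - p ≤ 7 / 8 →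
        Wg L f2 p (s i) (s (i + 1)) zs z0 ≤ Wg L f2 p (s i) (s (i + 1)) zs z + 2 * R * δJ) := by
    intro i
    by_cases hi : i < J
    · obtain ⟨z0, h1, h2, h3⟩ := mid_point L hpot2 hdat2 (hsM i hi.le) (hsM (i + 1) hi) (hdiff i hi) hzs.1
      rw [← hR] at h3
      exact ⟨z0, fun _ => ⟨h1, h2, h3⟩⟩
    · exact ⟨0, fun h => absurd h hi⟩
  choose z0 hz0 using hmid
  have hhδ : 2 * R * δJ + Cv * kap2 L / J + 1 / J = h := by
    rw [hh, hC1, hδJ]; ring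
  -- clusters
  have hclu : ∀ i : ℕ, ∃ D : Set E, i < J → (IsCompact D ∧ z0 i ∈ D ∧
      (∀ z ∈ D, 1 / 4 ≤ L.y z - p ∧ L.y z - p ≤ 3 / 4) ∧ (∀ z ∈ D, ‖z - z0 i‖ ≤ kap2 L) ∧
      ∀ z ∈ frontier D, Wg L f2 p (s i) (s (i + 1)) zs (z0 i) - 2 * R * δJ + h <
        Wg L f2 p (s i) (s (i + 1)) zs z) := by
    intro i
    by_cases hi : i < J
    · obtain ⟨h1, h2, h3⟩ := hz0 i hi
      have hle : 2 * R * δJ ≤ h := by
        have : 0 ≤ Cv * kap2 L / J := by positivity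
        have : 0 ≤ 1 / (J : ℝ) := by positivity
        linarith
      obtain ⟨D, hD1, hD2, hD3, hD4, hD5⟩ := cluster (N0 := N0) L hn16 hn4 (p := p)
        (ℓ := Wg L f2 p (s i) (s (i + 1)) zs (z0 i) - 2 * R * δJ + h)
        (Wg L f2 p (s i) (s (i + 1)) zs) (fun k z => Wg_per L hpot2.perb p _ _ zs k z) h1 h2 (by linarith)
        (fun I hI => hgood i hi (Wg L f2 p (s i) (s (i + 1)) zs (z0 i) - 2 * R * δJ)
          (fun z hz hz' => by have := h3 z hz hz'; linarith) I hI)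
      exact ⟨D, fun _ => ⟨hD1, hD2, hD3, hD4, hD5⟩⟩
    · exact ⟨∅, fun h => absurd h hi⟩
  choose D hDD using hclu
  refine ⟨fun x t => G1 x t + ∑ c : FC d n, σ c * gz L p w c.1 x t, isSm_add L hG1 (hsum σ hσ).1, ?_, ?_⟩
  · have h1 := N.add_le _ _ hG1 (hsum σ hσ).1
    have h2 := (hsum σ hσ).2
    linarith
  · have hfe : (fun x t => f x t + (G1 x t + ∑ c : FC d n, σ c * gz L p w c.1 x t)) = f2 := by
      funext x t
      rw [hf2]; simp only [pf, hf1]; ring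
    rw [hfe]
    refine ⟨J, s, F, fun i T => al (L.kbar f2 (s i)) (L.cell p) * T, D, 1 / (2 * J), hJ0, by positivity,
      ?_, ?_, hsb, fun i => ⟨hFne i, by rw [← hR]; exact hFT i⟩, fun i hi => ?_⟩
    · rw [hs]; simp
    · rw [hs]; rw [div_self hJp.ne']
    · obtain ⟨hD1, hD2, hD3, hD4, hD5⟩ := hDD i hi
      refine ⟨hD1, ⟨z0 i, hD2⟩, hD3, fun z hz => ⟨z0 i, hD2, fun x hx x' hx' => ?_⟩⟩
      have hzD : z ∈ D i := hD1.isClosed.frontier_subset hz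
      have hs0 := hD3 (z0 i) hD2
      have hs1 := hD3 z hzD
      have hJ1 : (1:ℝ) / (2 * J) = 8 * (1 / (16 * J)) := by field_simp; ring
      have hJ2 : (1:ℝ) / J = 16 * (1 / (16 * J)) := by field_simp
      have hJ3 : 4 * ηD = 1 / 2 * (1 / (16 * J)) := by rw [hηD]; field_simp; ring
      have hJ4 : (0:ℝ) < 1 / (16 * J) := by positivity
      refine gate_ineq L (η := 4 * ηD) (η2 := 1 / (16 * J)) (h := h - 2 * R * δJ) (κ := Cv * kap2 L / J)
        ⟨by linarith [hs0.1], by linarith [hs0.2]⟩ ⟨by linarith [hs1.1], by linarith [hs1.2]⟩ hx hx' hzs.1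
        (hFw i) (hFw (i + 1)) (hbar i hi.le) (hbar (i + 1) hi) ?_ ?_ ?_
      · have := hD5 z hz; linarith
      · refine (abs_real_inner_le_norm _ _).trans ?_
        have e : Cv * kap2 L / J = Cv / J * kap2 L := by ring
        rw [e]
        exact mul_le_mul (hsd i hi) (hD4 z hzD) (norm_nonneg _) (by positivity)
      · linarith

end Esc
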