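import Pool.Agent.helper33.Esc.Open
import Pool.Agent.helper33.Esc.Bump

/-!
Far perturbations: they do not change the critical value nor the barrier between near points.
-/

noncomputable section

namespace Esc.H33

open MeasureTheory Set Filter Topology
open scoped ContDiff

variable {d : ℕ} {E : Type*} [NormedAddCommGroup E] [InnerProductSpace ℝ E] [FiniteDimensional ℝ E]
  (L : Lat d E)

/-- far cells -/
def FC (d n : ℕ) := {k : Cl d n // n ≤ 4 * ((k none : ℕ) + 1) ∧ 4 * (k none : ℕ) ≤ 3 * n}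

instance (d n : ℕ) : Fintype (FC d n) := by unfold FC; infer_instance

instance (d n : ℕ) : DecidableEq (FC d n) := by unfold FC; infer_instance

variable {n : ℕ}

/-- perturbed potential -/
def pf (f : E → ℝ → ℝ) (p w : ℝ) (σ : FC d n → ℝ) : E → ℝ → ℝ :=
  fun x t => f x t + ∑ c : FC d n, σ c * gz L p w c.1 x t

/-- allowed parameters -/
def Alw (ε' : ℝ) (σ : FC d n → ℝ) : Prop := ∀ c, 0 ≤ σ c ∧ σ c ≤ ε'

/-- standing assumptions for far perturbations -/
structure FarS (n : ℕ) (f : E → ℝ → ℝ) (p β Φ M0 M B Λ Vm w ε' : ℝ) : Prop where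
  hn : 48 ≤ n
  M_nonneg : 0 ≤ M
  B_nonneg : 0 ≤ B
  w_pos : 0 < w
  w_lt : w < 1 / 2
  hw : kap L * (w * Vm + Real.sqrt (2 * (B + M + 1) * w)) ≤ 1 / (8 * n)
  ε'_pos : 0 < ε'
  kd : ∀ σ : FC d n → ℝ, Alw ε' σ → ∀ s, KD (L.kbar (pf L f p w σ) s) (L.cell p) (L.room p) B Λ
  good : ∀ σ : FC d n → ℝ, Alw ε' σ → Good M (pf L f p w σ)
  dat : ∀ σ : FC d n → ℝ, Alw ε' σ → L.Dat p β Φ M0 (pf L f p w σ)
  pot : ∀ σ : FC d n → ℝ, Alw ε' σ → L.IsPot (pf L f p w σ)
  close : ∀ σ : FC d n → ℝ, Alw ε' σ → ∀ x t, |pf L f p w σ x t - f x t| ≤ β / 8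

omit [FiniteDimensional ℝ E] in
lemma pf_zero (f : E → ℝ → ℝ) (p w : ℝ) : pf L f p w (0 : FC d n → ℝ) = f := by
  funext x t; simp [pf]

lemma alw_zero {ε' : ℝ} (h : 0 ≤ ε') : Alw ε' (0 : FC d n → ℝ) := fun _ => ⟨le_rfl, h⟩

omit [FiniteDimensional ℝ E] in
lemma vs_shift {p : ℝ} {k : Cl d n} {x γ : E} (hγ : ∀ j, ∃ m : ℤ, uc L 0 γ j = m) (h : vs L p k x) :
    vs L p k (x + γ) := by
  intro j
  obtain ⟨m, hm⟩ := h j
  obtain ⟨m', hm'⟩ := hγ j
  refine ⟨m + m', ?_⟩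
  rw [uc_add, hm']
  push_cast
  have : uc L p x j + m' - ctr k j - (m + m') = uc L p x j - ctr k j - m := by ring
  rw [this]; exact hm

omit [FiniteDimensional ℝ E] in
lemma inc_shift {p : ℝ} {k : Cl d n} {x γ : E} (hγ : ∀ j, ∃ m : ℤ, uc L 0 γ j = m) (h : inc L p k x) :
    inc L p k (x + γ) := by
  intro j
  obtain ⟨m, hm⟩ := h j
  obtain ⟨m', hm'⟩ := hγ j
  refine ⟨m + m', ?_⟩
  rw [uc_add, hm']
  push_cast
  have : uc L p x j + m' - ctr k j - (m + m') = uc L p x j - ctr k j - m := by ring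
  rw [this]; exact hm

omit [FiniteDimensional ℝ E] in
lemma int_neg_g : ∀ j, ∃ m : ℤ, uc L 0 (-L.g) j = m := by
  intro j
  obtain ⟨m, hm⟩ := int_g L j
  refine ⟨-m, ?_⟩
  have := uc_sub L 0 0 L.g j
  rw [zero_sub] at this
  rw [← this, hm]
  have h0 : uc L 0 (0 : E) j = 0 := by
    have := uc_sub L 0 (0:E) 0 j
    simpa using this.symm
  rw [h0]; push_cast; ring

omit [FiniteDimensional ℝ E] in
lemma not_vs_near (hn : 48 ≤ n) {p : ℝ} (c : FC d n) {x : E} (hx : |L.y x - p| ≤ 1 / 8) :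
    ¬ vs L p c.1 x := by
  intro h
  obtain ⟨m, hm⟩ := h none
  have hn' : (48:ℝ) ≤ n := by exact_mod_cast hn
  have hn0 : (0:ℝ) < n := by linarith
  have h1 : (n:ℝ) ≤ 4 * ((c.1 none : ℕ) + 1) := by exact_mod_cast c.2.1
  have h2 : 4 * ((c.1 none : ℕ) : ℝ) ≤ 3 * n := by exact_mod_cast c.2.2
  have e : uc L p x none = L.y x - p := rfl
  rw [e] at hm
  simp only [ctr] at hm
  set κ : ℝ := ((c.1 none : ℕ) : ℝ) with hκ
  have a1 : 1 / 4 - 1 / (2 * n) ≤ (κ + 1 / 2) / n := by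
    rw [le_div_iff₀ hn0]
    have : (1 / 4 - 1 / (2 * (n:ℝ))) * n = n / 4 - 1 / 2 := by field_simp
    rw [this]; linarith
  have a2 : (κ + 1 / 2) / n ≤ 3 / 4 + 1 / (2 * n) := by
    rw [div_le_iff₀ hn0]
    have : (3 / 4 + 1 / (2 * (n:ℝ))) * n = 3 * n / 4 + 1 / 2 := by field_simp
    rw [this]; linarith
  have a3 : (5:ℝ) / (4 * n) ≤ 5 / 192 := by
    rw [div_le_div_iff₀ (by positivity) (by norm_num)]; linarith
  have a4 : (1:ℝ) / (2 * n) ≤ 1 / 96 := by
    rw [div_le_div_iff₀ (by positivity) (by norm_num)]; linarith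
  rw [abs_lt] at hm
  rw [abs_le] at hx
  rcases lt_trichotomy m (-1) with h3 | h3 | h3
  · have : (m:ℝ) ≤ -2 := by exact_mod_cast (by omega : m ≤ -2)
    linarith [hm.1, hm.2, hx.1, hx.2]
  · have : (m:ℝ) = -1 := by exact_mod_cast h3
    rw [this] at hm
    linarith [hm.1, hm.2, hx.1, hx.2]
  · have : (0:ℝ) ≤ m := by exact_mod_cast (by omega : 0 ≤ m)
    linarith [hm.1, hm.2, hx.1, hx.2]

variable {f : E → ℝ → ℝ} {p β Φ M0 M B Λ Vm w ε' : ℝ}

/-- potentials coincide on tubes around points not visiting the changed cells -/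
lemma pf_tube (hn : 2 ≤ n) {σ σ' : FC d n → ℝ} {z v r : E} {t : ℝ} (h : ∀ c : FC d n, vs L p c.1 z → σ c ≤ σ' c)
    (hr : kap L * ‖t • v + r‖ ≤ 1 / (8 * n)) (hw : 0 < w) (hw' : w ≤ 1 / 2) :
    pf L f p w σ (z + t • v + r) t ≤ pf L f p w σ' (z + t • v + r) t := by
  unfold pf
  have : ∑ c : FC d n, σ c * gz L p w c.1 (z + t • v + r) t ≤
      ∑ c : FC d n, σ' c * gz L p w c.1 (z + t • v + r) t := by
    apply Finset.sum_le_sum
    intro c _
    by_cases hc : vs L p c.1 z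
    · exact mul_le_mul_of_nonneg_right (h c hc) (gz_nonneg L hw hw' _ _ _)
    · have h0 : gc L p c.1 (z + (t • v + r)) = 0 := gc_eq_zero L hn p c.1 hc hr
      rw [← add_assoc] at h0
      unfold gz
      rw [h0]; simp
  linarith

lemma kap_bound (hw0 : 0 ≤ w) (hw : kap L * (w * Vm + Real.sqrt (2 * (B + M + 1) * w)) ≤ 1 / (8 * n))
    {v r : E} {τ : ℝ} (hτ : |τ| ≤ w) (hv : ‖v‖ ≤ Vm) (hr : ‖r‖ ≤ Real.sqrt (2 * (B + M + 1) * w)) :
    kap L * ‖τ • v + r‖ ≤ 1 / (8 * n) := by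
  refine le_trans (mul_le_mul_of_nonneg_left ?_ (kap_pos L).le) hw
  refine (norm_add_le _ _).trans (add_le_add ?_ hr)
  rw [norm_smul, Real.norm_eq_abs]
  exact mul_le_mul hτ hv (norm_nonneg _) hw0

/-- locality: general one-sided version -/
lemma kbar_local_le (hF : FarS L n f p β Φ M0 M B Λ Vm w ε') {σ σ' : FC d n → ℝ} (hσ : Alw ε' σ) (hσ' : Alw ε' σ')
    {s : ℝ} (hv : ‖L.vel s‖ ≤ Vm) {z z' : E} (hz : z ∈ L.room p) (hz' : z' ∈ L.room p)
    (h : ∀ c : FC d n, vs L p c.1 z → σ c ≤ σ' c) (h' : ∀ c : FC d n, vs L p c.1 z' → σ c ≤ σ' c) :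
    L.kbar (pf L f p w σ) s z z' ≤ L.kbar (pf L f p w σ') s z z' := by
  have hB : L.kbar (pf L f p w σ') s z z' ≤ B := (abs_le.1 ((hF.kd σ' hσ' s).bd z hz z' hz')).2
  have hn2 : 2 ≤ n := by have := hF.hn; omega
  have key := kbar_tube L (hF.good σ hσ) (hF.good σ' hσ') (hF.pot σ hσ).perb (hF.pot σ' hσ').perb s z z' hB
    hF.w_pos hF.w_lt (fun _ => 0) intervalIntegrable_const
    (fun t ht r hr => by
      rw [add_zero]
      apply pf_tube L hn2 h _ hF.w_pos hF.w_lt.le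
      exact kap_bound L hF.w_pos.le hF.hw (by rw [abs_of_nonneg ht.1]; exact ht.2) hv hr)
    (fun t ht r hr => by
      rw [add_zero]
      have e : z' - (1 - t) • L.vel s + r = z' + ((-(1 - t)) • L.vel s + r) := by rw [neg_smul]; abel
      have hk : kap L * ‖(-(1 - t)) • L.vel s + r‖ ≤ 1 / (8 * n) :=
        kap_bound L hF.w_pos.le hF.hw (by rw [abs_neg, abs_of_nonneg (by linarith [ht.2])]; linarith [ht.1]) hv hr
      rw [e]
      unfold pf
      have : ∑ c : FC d n, σ c * gz L p w c.1 (z' + ((-(1 - t)) • L.vel s + r)) t ≤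
          ∑ c : FC d n, σ' c * gz L p w c.1 (z' + ((-(1 - t)) • L.vel s + r)) t := by
        apply Finset.sum_le_sum
        intro c _
        by_cases hc : vs L p c.1 z'
        · exact mul_le_mul_of_nonneg_right (h' c hc) (gz_nonneg L hF.w_pos hF.w_lt.le _ _ _)
        · have h0 := gc_eq_zero L hn2 p c.1 hc hk
          unfold gz
          rw [h0]; simp
      linarith)
    (fun t ht x => by
      rw [add_zero]
      unfold pf gz
      have h0 : zt w t = 0 := zt_mid hF.w_pos hF.w_lt.le ⟨ht.1.le, ht.2.le⟩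
      simp [h0])
  simpa using key

lemma kbar_local (hF : FarS L n f p β Φ M0 M B Λ Vm w ε') {σ σ' : FC d n → ℝ} (hσ : Alw ε' σ) (hσ' : Alw ε' σ')
    {s : ℝ} (hv : ‖L.vel s‖ ≤ Vm) {z z' : E} (hz : z ∈ L.room p) (hz' : z' ∈ L.room p)
    (h : ∀ c : FC d n, vs L p c.1 z → σ c = σ' c) (h' : ∀ c : FC d n, vs L p c.1 z' → σ c = σ' c) :
    L.kbar (pf L f p w σ) s z z' = L.kbar (pf L f p w σ') s z z' :=
  le_antisymm (kbar_local_le L hF hσ hσ' hv hz hz' (fun c hc => (h c hc).le) (fun c hc => (h' c hc).le))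
    (kbar_local_le L hF hσ' hσ hv hz hz' (fun c hc => (h c hc).ge) (fun c hc => (h' c hc).ge))

/-- masses of the time bump at the two ends of the unit interval -/
def A0 (w : ℝ) : ℝ := ∫ t in (0:ℝ)..1, (Icc 0 w).indicator (zt w) t

def A1 (w : ℝ) : ℝ := ∫ t in (0:ℝ)..1, (Icc (1 - w) 1).indicator (zt w) t

lemma ii_ind (w : ℝ) (S : Set ℝ) (hS : MeasurableSet S) :
    IntervalIntegrable (S.indicator (zt w)) volume 0 1 := by
  have h := (zt_cont w).intervalIntegrable (μ := volume) 0 1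
  rw [intervalIntegrable_iff] at h ⊢
  exact h.indicator hS

lemma A0_add_A1 (hw : 0 < w) (hw' : w < 1 / 2) : A0 w + A1 w = 1 := by
  unfold A0 A1
  rw [← intervalIntegral.integral_add (ii_ind w _ measurableSet_Icc) (ii_ind w _ measurableSet_Icc)]
  refine Eq.trans ?_ (zt_integral hw hw'.le)
  apply intervalIntegral.integral_congr
  intro t ht
  rw [uIcc_of_le zero_le_one] at ht
  simp only
  by_cases h1 : t ∈ Icc 0 w
  · have h2 : t ∉ Icc (1 - w) 1 := fun h => by linarith [h.1, h1.2]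
    rw [indicator_of_mem h1, indicator_of_notMem h2, add_zero]
  · by_cases h2 : t ∈ Icc (1 - w) 1
    · rw [indicator_of_notMem h1, indicator_of_mem h2, zero_add]
    · rw [indicator_of_notMem h1, indicator_of_notMem h2, add_zero, zt_mid hw hw'.le]
      constructor
      · by_contra hc; push Not at hc; exact h1 ⟨ht.1, hc.le⟩
      · by_contra hc; push Not at hc; exact h2 ⟨hc.le, ht.2⟩

lemma A0_nonneg (hw : 0 < w) (hw' : w < 1 / 2) : 0 ≤ A0 w := by
  apply intervalIntegral.integral_nonneg zero_le_one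
  intro t _
  exact indicator_nonneg (fun _ _ => zt_nonneg hw hw'.le _) _

lemma A1_nonneg (hw : 0 < w) (hw' : w < 1 / 2) : 0 ≤ A1 w := by
  apply intervalIntegral.integral_nonneg zero_le_one
  intro t _
  exact indicator_nonneg (fun _ _ => zt_nonneg hw hw'.le _) _

omit [FiniteDimensional ℝ E] in
lemma pf_mono {σ σ' : FC d n → ℝ} (h : σ ≤ σ') (hw : 0 < w) (hw' : w ≤ 1 / 2) (x : E) (t : ℝ) :
    pf L f p w σ x t ≤ pf L f p w σ' x t := by
  unfold pf
  have : ∑ c : FC d n, σ c * gz L p w c.1 x t ≤ ∑ c : FC d n, σ' c * gz L p w c.1 x t :=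
    Finset.sum_le_sum fun c _ => mul_le_mul_of_nonneg_right (h c) (gz_nonneg L hw hw' _ _ _)
  linarith

omit [FiniteDimensional ℝ E] in
lemma pf_grow {σ σ' : FC d n → ℝ} (h : σ ≤ σ') (hw : 0 < w) (hw' : w ≤ 1 / 2) (c : FC d n) {x : E} {t : ℝ}
    (hx : gc L p c.1 x = 1) :
    pf L f p w σ x t + (σ' c - σ c) * zt w t ≤ pf L f p w σ' x t := by
  unfold pf
  have h1 : (σ' c - σ c) * zt w t ≤ ∑ c : FC d n, (σ' c - σ c) * gz L p w c.1 x t := by
    have h2 : (σ' c - σ c) * zt w t = (σ' c - σ c) * gz L p w c.1 x t := by unfold gz; rw [hx, one_mul]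
    rw [h2]
    apply Finset.single_le_sum (f := fun c => (σ' c - σ c) * gz L p w c.1 x t) _ (Finset.mem_univ c)
    intro c' _
    exact mul_nonneg (sub_nonneg.2 (h c')) (gz_nonneg L hw hw' _ _ _)
  have h3 : ∑ c : FC d n, (σ' c - σ c) * gz L p w c.1 x t =
      ∑ c : FC d n, σ' c * gz L p w c.1 x t - ∑ c : FC d n, σ c * gz L p w c.1 x t := by
    rw [← Finset.sum_sub_distrib]
    exact Finset.sum_congr rfl fun c _ => by ring
  linarith

/-- growth at the starting point -/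
lemma kbar_grow_start (hF : FarS L n f p β Φ M0 M B Λ Vm w ε') {σ σ' : FC d n → ℝ} (hσ : Alw ε' σ)
    (hσ' : Alw ε' σ') (hle : σ ≤ σ') {s : ℝ} (hv : ‖L.vel s‖ ≤ Vm) {z z' : E} (hz : z ∈ L.room p)
    (hz' : z' ∈ L.room p) (c : FC d n) (hc : inc L p c.1 z) :
    L.kbar (pf L f p w σ) s z z' + (σ' c - σ c) * A0 w ≤ L.kbar (pf L f p w σ') s z z' := by
  have hB : L.kbar (pf L f p w σ') s z z' ≤ B := (abs_le.1 ((hF.kd σ' hσ' s).bd z hz z' hz')).2
  have hn2 : 2 ≤ n := by have := hF.hn; omega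
  have hm := pf_mono (f := f) (p := p) L hle hF.w_pos hF.w_lt.le
  have key := kbar_tube L (hF.good σ hσ) (hF.good σ' hσ') (hF.pot σ hσ).perb (hF.pot σ' hσ').perb s z z' hB
    hF.w_pos hF.w_lt (fun t => (σ' c - σ c) * (Icc 0 w).indicator (zt w) t)
    ((ii_ind w _ measurableSet_Icc).const_mul _)
    (fun t ht r hr => by
      rw [indicator_of_mem ht]
      apply pf_grow L hle hF.w_pos hF.w_lt.le c
      rw [add_assoc]
      apply gc_eq_one L hn2 p c.1 hc
      exact kap_bound L hF.w_pos.le hF.hw (by rw [abs_of_nonneg ht.1]; exact ht.2) hv hr)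
    (fun t ht r _ => by
      have : t ∉ Icc 0 w := fun h => by linarith [h.2, ht.1, hF.w_lt]
      rw [indicator_of_notMem this, mul_zero, add_zero]
      exact hm _ _)
    (fun t ht x => by
      have : t ∉ Icc 0 w := fun h => by linarith [h.2, ht.1]
      rw [indicator_of_notMem this, mul_zero, add_zero]
      exact hm _ _)
  rw [intervalIntegral.integral_const_mul] at key
  exact key

/-- growth at the end point -/
lemma kbar_grow_end (hF : FarS L n f p β Φ M0 M B Λ Vm w ε') {σ σ' : FC d n → ℝ} (hσ : Alw ε' σ)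
    (hσ' : Alw ε' σ') (hle : σ ≤ σ') {s : ℝ} (hv : ‖L.vel s‖ ≤ Vm) {z z' : E} (hz : z ∈ L.room p)
    (hz' : z' ∈ L.room p) (c : FC d n) (hc : inc L p c.1 z') :
    L.kbar (pf L f p w σ) s z z' + (σ' c - σ c) * A1 w ≤ L.kbar (pf L f p w σ') s z z' := by
  have hB : L.kbar (pf L f p w σ') s z z' ≤ B := (abs_le.1 ((hF.kd σ' hσ' s).bd z hz z' hz')).2
  have hn2 : 2 ≤ n := by have := hF.hn; omega
  have hm := pf_mono (f := f) (p := p) L hle hF.w_pos hF.w_lt.le
  have key := kbar_tube L (hF.good σ hσ) (hF.good σ' hσ') (hF.pot σ hσ).perb (hF.pot σ' hσ').perb s z z' hB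
    hF.w_pos hF.w_lt (fun t => (σ' c - σ c) * (Icc (1 - w) 1).indicator (zt w) t)
    ((ii_ind w _ measurableSet_Icc).const_mul _)
    (fun t ht r _ => by
      have : t ∉ Icc (1 - w) 1 := fun h => by linarith [h.1, ht.2, hF.w_lt]
      rw [indicator_of_notMem this, mul_zero, add_zero]
      exact hm _ _)
    (fun t ht r hr => by
      rw [indicator_of_mem ht]
      apply pf_grow L hle hF.w_pos hF.w_lt.le c
      have e : z' - (1 - t) • L.vel s + r = z' + ((-(1 - t)) • L.vel s + r) := by rw [neg_smul]; abel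
      rw [e]
      apply gc_eq_one L hn2 p c.1 hc
      exact kap_bound L hF.w_pos.le hF.hw (by rw [abs_neg, abs_of_nonneg (by linarith [ht.2])]; linarith [ht.1])
        hv hr)
    (fun t ht x => by
      have : t ∉ Icc (1 - w) 1 := fun h => by linarith [h.1, ht.2]
      rw [indicator_of_notMem this, mul_zero, add_zero]
      exact hm _ _)
  rw [intervalIntegral.integral_const_mul] at key
  exact key

end Esc.H33
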