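import Pool.Agent.helper33.Esc.Lift

/-!
Escape from the stages.
-/

noncomputable section

namespace Esc

open MeasureTheory Set Filter Topology
open H33

variable {d : ℕ} {E : Type*} [NormedAddCommGroup E] [InnerProductSpace ℝ E] [FiniteDimensional ℝ E]
  (L : Lat d E)

theorem escapes_of_stages (hd : 0 < d) {p β Φ M0 : ℝ} {f : E → ℝ → ℝ} (hf : L.IsPot f)
    (hD : L.Dat p β Φ M0 f) (hS : ∀ m : ℕ, M0 ≤ m → L.Stage p β m f) : Escapes f := by
  obtain ⟨M, hM⟩ := isPot_good L hf
  obtain ⟨σ, I, cc, D, hC⟩ := exists_chn L hf hD hS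
  obtain ⟨w, ν, B, hν, hmin, hB⟩ := exists_seq L hf hD hC
  obtain ⟨x, v, hx, hv, hvd, hxw, hact⟩ := orbit_of_sitewise L hf w hmin
  refine ⟨x, v, hx, hv, hvd, ?_⟩
  have hM0 := hM.pos
  -- bound of the acceleration
  have hacc : ∀ t, ‖deriv v t‖ ≤ M := by
    intro t
    have h1 := hv t
    have h2 : ‖innerSL ℝ (deriv v t)‖ ≤ M := by
      have := h1.le_of_lip' (C := M) hM0 (Filter.Eventually.of_forall fun z => by
        have := hM.lipx z (x t) t
        simpa [Real.norm_eq_abs] using this)
      exact this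
    rwa [innerSL_apply_norm] at h2
  have hvc : Continuous v := by
    rw [continuous_iff_continuousAt]; exact fun t => (hvd t).continuousAt
  have hxc : Continuous x := by
    rw [continuous_iff_continuousAt]; exact fun t => (hx t).continuousAt
  have hlip : ∀ s t, ‖v s - v t‖ ≤ M * |s - t| := by
    intro s t
    have := Convex.norm_image_sub_le_of_norm_deriv_le (f := v) (s := univ) (C := M) (x := t) (y := s)
      (fun r _ => hvd r) (fun r _ => hacc r) convex_univ (mem_univ _) (mem_univ _)
    simpa [Real.norm_eq_abs] using this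
  -- energy estimate on unit intervals
  have hen : ∀ j : ℕ, ∫ t in (j:ℝ)..(j+1), ‖v t - L.vel (σ (ν j))‖ ^ 2 / 2 ≤ B + M := by
    intro j
    set V := L.vel (σ (ν j)) with hV
    have hint1 : IntervalIntegrable (fun t => ‖v t‖ ^ 2 / 2 + f (x t) t) volume (j:ℝ) (j+1) := by
      apply Continuous.intervalIntegrable
      exact ((hvc.norm.pow 2).div_const 2).add (hM.cont.comp (hxc.prodMk continuous_id))
    have hint2 : IntervalIntegrable (fun t => inner ℝ V (v t)) volume (j:ℝ) (j+1) :=
      (continuous_const.inner hvc).intervalIntegrable _ _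
    have hint3 : IntervalIntegrable (fun t => f (x t) t) volume (j:ℝ) (j+1) :=
      (hM.cont.comp (hxc.prodMk continuous_id)).intervalIntegrable _ _
    have hfun : ∀ t, ‖v t - V‖ ^ 2 / 2 = (‖v t‖ ^ 2 / 2 + f (x t) t) - inner ℝ V (v t) + ‖V‖ ^ 2 / 2
        - f (x t) t := by
      intro t
      rw [norm_sub_sq_real, real_inner_comm]
      ring
    have hFTC : ∫ t in (j:ℝ)..(j+1), inner ℝ V (v t) = inner ℝ V (w (j + 1) - w j) := by
      have h1 : ∫ t in (j:ℝ)..(j+1), v t = x (j + 1) - x j :=
        intervalIntegral.integral_eq_sub_of_hasDerivAt (fun t _ => hx t) (hvc.intervalIntegrable _ _)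
      have h3 : ∫ t in (j:ℝ)..(j+1), inner ℝ V (v t) = inner ℝ V (∫ t in (j:ℝ)..(j+1), v t) :=
        (innerSL ℝ V).intervalIntegral_comp_comm (hvc.intervalIntegrable _ _)
      rw [h3, h1]
      have h4 : x ((j:ℝ) + 1) = w (j + 1) := by
        have := hxw (j + 1)
        push_cast at this
        exact this
      rw [h4, hxw j]
    simp_rw [hfun]
    rw [intervalIntegral.integral_sub ((hint1.sub hint2).add intervalIntegrable_const) hint3,
      intervalIntegral.integral_add (hint1.sub hint2) intervalIntegrable_const,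
      intervalIntegral.integral_sub hint1 hint2, hact j, hFTC, intervalIntegral.integral_const]
    have hg := ker_galilei hM V (a := 0) (b := 1) one_pos (w j) (w (j + 1))
    have hBj := hB j
    rw [← hV] at hBj
    have hfl : -M ≤ ∫ t in (j:ℝ)..(j+1), f (x t) t := by
      have h1 : ∫ t in (j:ℝ)..(j+1), (-M) ≤ ∫ t in (j:ℝ)..(j+1), f (x t) t := by
        apply intervalIntegral.integral_mono_on (by linarith) intervalIntegrable_const hint3
        intro t _
        exact (abs_le.1 (hM.bd (x t) t)).1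
      rw [intervalIntegral.integral_const] at h1
      simpa using h1
    have h5 : ((j:ℝ) + 1 - j) = 1 := by ring
    rw [h5, one_smul]
    linarith
  -- pointwise estimate
  have hpt : ∀ j : ℕ, ∀ t ∈ Icc (j:ℝ) (j+1), ‖L.vel (σ (ν j))‖ - (Real.sqrt (2 * (B + M)) + M) ≤ ‖v t‖ := by
    intro j t ht
    set V := L.vel (σ (ν j)) with hV
    have hBM : 0 ≤ B + M := by
      refine le_trans ?_ (hen j)
      apply intervalIntegral.integral_nonneg (by linarith)
      intro t _; positivity
    obtain ⟨t0, ht0, h0⟩ : ∃ t0 ∈ Icc (j:ℝ) (j+1), ‖v t0 - V‖ ^ 2 / 2 ≤ B + M := by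
      by_contra hcon
      push Not at hcon
      have hc : Continuous (fun t => ‖v t - V‖ ^ 2 / 2) := ((hvc.sub continuous_const).norm.pow 2).div_const 2
      have h1 : ∫ t in (j:ℝ)..(j+1), (B + M) < ∫ t in (j:ℝ)..(j+1), ‖v t - V‖ ^ 2 / 2 := by
        apply intervalIntegral.integral_lt_integral_of_continuousOn_of_le_of_exists_lt (by linarith)
          continuousOn_const hc.continuousOn
        · intro t ht'
          exact (hcon t (Ioc_subset_Icc_self ht')).le
        · exact ⟨j, left_mem_Icc.2 (by linarith), hcon j (left_mem_Icc.2 (by linarith))⟩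
      rw [intervalIntegral.integral_const] at h1
      have h5 : ((j:ℝ) + 1 - j) = 1 := by ring
      rw [h5, one_smul] at h1
      exact absurd (hen j) (not_le.2 h1)
    have h1 : ‖v t0 - V‖ ≤ Real.sqrt (2 * (B + M)) := by
      apply Real.le_sqrt_of_sq_le
      linarith
    have h2 : ‖v t - v t0‖ ≤ M := by
      refine (hlip t t0).trans ?_
      have : |t - t0| ≤ 1 := by
        rw [abs_le]; constructor <;> linarith [ht.1, ht.2, ht0.1, ht0.2]
      nlinarith [abs_nonneg (t - t0)]
    have h3 : ‖V‖ ≤ ‖v t‖ + ‖v t - v t0‖ + ‖v t0 - V‖ := by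
      have e : V = v t - (v t - v t0) - (v t0 - V) := by abel
      calc ‖V‖ = ‖v t - (v t - v t0) - (v t0 - V)‖ := by rw [← e]
        _ ≤ ‖v t - (v t - v t0)‖ + ‖v t0 - V‖ := norm_sub_le _ _
        _ ≤ ‖v t‖ + ‖v t - v t0‖ + ‖v t0 - V‖ := by gcongr; exact norm_sub_le _ _
    linarith
  -- conclusion
  have hseq : Tendsto (fun j : ℕ => ‖L.vel (σ (ν j))‖ - (Real.sqrt (2 * (B + M)) + M)) atTop atTop := by
    apply tendsto_atTop_add_const_right
    exact (vel_tendsto L hd).comp (hC.tend.comp hν)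
  rw [tendsto_atTop]
  intro R
  obtain ⟨j0, hj0⟩ := (tendsto_atTop.1 hseq R).exists_forall_of_atTop
  filter_upwards [eventually_ge_atTop (j0 : ℝ)] with t ht
  have ht0 : 0 ≤ t := le_trans (Nat.cast_nonneg _) ht
  set j := ⌊t⌋₊ with hj
  have h1 : (j:ℝ) ≤ t := Nat.floor_le ht0
  have h2 : t < j + 1 := Nat.lt_floor_add_one t
  have h3 : j0 ≤ j := Nat.le_floor ht
  exact (hj0 j h3).trans (hpt j t ⟨h1, h2.le⟩)

end Esc
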