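import Pool.Agent.helper33.Esc.Ifc
import Pool.Agent.helper33.Esc.Basic

/-!
Reduction to one-dimensional sequences.
-/

noncomputable section

namespace Esc.H33

open MeasureTheory Set Filter Topology

variable {d : ℕ} {E : Type*} [NormedAddCommGroup E] [InnerProductSpace ℝ E] [FiniteDimensional ℝ E]
  (L : Lat d E)

/-- from the data class to the one-dimensional data -/
theorem sdata_of_dat {p β Φ M0 : ℝ} {f : E → ℝ → ℝ} (hf : L.IsPot f) (hD : L.Dat p β Φ M0 f) :
    ∃ ε, SData (L.S f) p β Φ (L.ebar f) ε ∧ ∀ s, M0 ≤ s → ∀ z z', |L.y z - L.y z'| ≤ 2 →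
      |L.kbar f s z z' - L.dpart s z z' - L.S f (L.y z) (L.y z')| ≤ ε := by
  obtain ⟨β', hβ', h1⟩ := hD.c1
  obtain ⟨κ2, hκ2, h2⟩ := hD.c2
  obtain ⟨κ3, hκ3, h3⟩ := hD.c3
  have hβ0 := hD.β_pos
  refine ⟨κ3, ⟨fun a b a' b' h h' => S_cross L hf h h', fun η η' h => (h2 η η' h).trans hκ2.le,
    fun v => ebar_le L hf v, ?_, fun v hv hv' => ?_, hβ0, hD.β_le, ?_, hκ3.le⟩, h3⟩
  · obtain ⟨v, hv, hv'⟩ := exists_ebar_eq L hf p
    refine ⟨v, ?_, hv'⟩
    by_contra hcon
    push Not at hcon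
    have := h1 v hcon hv
    linarith
  · have := h1 v hv hv'
    linarith
  · have := h3 M0 le_rfl 0 0 (by simp)
    exact (abs_nonneg _).trans this

/-- minimal paths have near-minimal slow sequences -/
theorem nm_of_min {p β Φ M0 ε s : ℝ} {f : E → ℝ → ℝ} {B Λ : ℝ}
    (hK : KD (L.kbar f s) (L.cell p) (L.room p) B Λ)
    (h3 : ∀ z z', |L.y z - L.y z'| ≤ 2 →
      |L.kbar f s z z' - L.dpart s z z' - L.S f (L.y z) (L.y z')| ≤ ε)
    {T : ℕ} (hT : 1 ≤ T) {x : ℕ → E} (hx : ∀ k ≤ T, x k ∈ L.room p)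
    (hmin : cost (L.kbar f s) x T ≤ kp (L.kbar f s) (L.cell p) T (x 0) (x T)) :
    NM (L.S f) p ε T (fun k => L.y (x k)) := by
  refine ⟨fun k hk => hx k hk, ?_⟩
  intro i j hij hjT η hηi hηj hη
  set x' : ℕ → E := fun k => if i ≤ k ∧ k ≤ j then L.setY (x k) (η k) else x k with hx'
  have hin : ∀ k, i ≤ k → k ≤ j → x' k = L.setY (x k) (η k) := fun k h1 h2 => by simp [hx', h1, h2]
  have hout : ∀ k, ¬ (i < k ∧ k < j) → x' k = x k := by
    intro k hk
    by_cases h : i ≤ k ∧ k ≤ j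
    · have h' : k = i ∨ k = j := by omega
      rw [hin k h.1 h.2]
      rcases h' with rfl | rfl
      · exact setY_eq L _ hηi
      · exact setY_eq L _ hηj
    · simp only [hx', h, if_false]
  have hx'r : ∀ k ≤ T, x' k ∈ L.room p := by
    intro k hk
    by_cases h : i ≤ k ∧ k ≤ j
    · rw [hin k h.1 h.2]
      exact setY_mem_room L _ (hη k h.1 h.2)
    · rw [hout k (by omega)]; exact hx k hk
  have h0 : x' 0 = x 0 := hout 0 (by omega)
  have hT' : x' T = x T := hout T (by omega)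
  have hle := kp_le_cost hK hT hx'r
  rw [h0, hT'] at hle
  have hcost : cost (L.kbar f s) x T ≤ cost (L.kbar f s) x' T := hmin.trans hle
  unfold cost at hcost
  -- only the block matters
  have hsub : Finset.Ico i j ⊆ Finset.range T := by
    intro k hk
    rw [Finset.mem_Ico] at hk
    rw [Finset.mem_range]; omega
  have hdiff : ∑ k ∈ Finset.range T, (L.kbar f s (x' k) (x' (k + 1)) - L.kbar f s (x k) (x (k + 1))) =
      ∑ k ∈ Finset.Ico i j, (L.kbar f s (x' k) (x' (k + 1)) - L.kbar f s (x k) (x (k + 1))) := by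
    symm
    apply Finset.sum_subset hsub
    intro k _ hk
    rw [Finset.mem_Ico] at hk
    rw [hout k (by omega), hout (k + 1) (by omega), sub_self]
  have h1 : 0 ≤ ∑ k ∈ Finset.Ico i j,
      (L.kbar f s (x' k) (x' (k + 1)) - L.kbar f s (x k) (x (k + 1))) := by
    rw [← hdiff, Finset.sum_sub_distrib]; linarith
  have hterm : ∀ k ∈ Finset.Ico i j,
      L.kbar f s (x' k) (x' (k + 1)) - L.kbar f s (x k) (x (k + 1)) ≤
        L.S f (η k) (η (k + 1)) - L.S f (L.y (x k)) (L.y (x (k + 1))) + 2 * ε := by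
    intro k hk
    rw [Finset.mem_Ico] at hk
    rw [hin k hk.1 (by omega), hin (k + 1) (by omega) (by omega)]
    have hA := h3 (L.setY (x k) (η k)) (L.setY (x (k + 1)) (η (k + 1)))
      (room_diff L (setY_mem_room L _ (hη k (by omega) (by omega)))
        (setY_mem_room L _ (hη (k + 1) (by omega) (by omega))))
    have hB := h3 (x k) (x (k + 1)) (room_diff L (hx k (by omega)) (hx (k + 1) (by omega)))
    rw [dpart_setY, y_setY, y_setY] at hA
    have hA' := (abs_le.1 hA).2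
    have hB' := (abs_le.1 hB).1
    linarith
  have h2 := Finset.sum_le_sum hterm
  rw [Finset.sum_add_distrib, Finset.sum_const, Nat.card_Ico] at h2
  rw [Finset.sum_sub_distrib] at h1
  rw [Finset.sum_sub_distrib, Finset.sum_sub_distrib] at h2
  have hcast : ((j - i : ℕ) : ℝ) = (j : ℝ) - i := by
    rw [Nat.cast_sub hij.le]
  rw [nsmul_eq_mul, hcast] at h2
  linarith

end Esc.H33
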