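import Pool.Agent.helper42.Esc.A3
import Pool.Agent.helper42.Esc.K2
import Pool.Agent.helper1.Esc.ModR
import Pool.Agent.helper1.Esc.ModD
import Pool.Agent.helper37.Esc.Orbit

/-!
Collected modules K, K2, A, R, D, O.
-/
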