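import Pool.Agent.helper33.Esc.Flat
import Pool.Agent.helper33.Esc.Chain

/-!
From the chain data to a sitewise minimal sequence in the universal cover.
-/

noncomputable section

namespace Esc.H33

open MeasureTheory Set Filter Topology

variable {d : ℕ} {E : Type*} [NormedAddCommGroup E] [InnerProductSpace ℝ E] [FiniteDimensional ℝ E]
  (L : Lat d E)

lemma site_min {M : ℝ} {f : E → ℝ → ℝ} (hf : Good M f) (V V' a b m : E)
    (h : ∀ᶠ x in 𝓝 m, ker f V 0 1 a m + ker f V' 0 1 m b - inner ℝ (V' - V) m ≤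
      ker f V 0 1 a x + ker f V' 0 1 x b - inner ℝ (V' - V) x) :
    IsLocalMin (fun x => ker f 0 0 1 a x + ker f 0 0 1 x b) m := by
  filter_upwards [h] with x hx
  have g1 : ∀ (W z z' : E), ker f W 0 1 z z' = ker f 0 0 1 z z' - inner ℝ W (z' - z) + (1 - 0) * ‖W‖ ^ 2 / 2 :=
    fun W z z' => ker_galilei hf W one_pos z z'
  rw [g1 V a m, g1 V' m b, g1 V a x, g1 V' x b] at hx
  simp only [inner_sub_right, inner_sub_left] at hx
  linarith

/-- periods of a potential -/
def PerV (f : E → ℝ → ℝ) (γ : E) : Prop := ∀ x t, f (x + γ) t = f x t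

omit [FiniteDimensional ℝ E] in
lemma PerV.add {f : E → ℝ → ℝ} {γ γ' : E} (h : PerV f γ) (h' : PerV f γ') : PerV f (γ + γ') := by
  intro x t
  rw [← add_assoc, h', h]

/-- minimal paths of transitions stay away from the boundary of the room -/
lemma trans_room {p β Φ M0 s : ℝ} {f : E → ℝ → ℝ} {B Λ : ℝ} (hf : L.IsPot f) (hD : L.Dat p β Φ M0 f)
    (hK : KD (L.kbar f s) (L.cell p) (L.room p) B Λ) (hs : M0 ≤ s)
    {T : ℕ} (hT : 2 * Lat.R1 β + 2 ≤ T) {x : ℕ → E} (hx : ∀ k ≤ T, x k ∈ L.room p)
    (hmin : cost (L.kbar f s) x T = kp (L.kbar f s) (L.cell p) T (x 0) (x T))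
    (h0 : -(3/4) ≤ L.y (x 0) - p ∧ L.y (x 0) - p ≤ -(1/4)) (h1 : 1/4 ≤ L.y (x T) - p ∧ L.y (x T) - p ≤ 3/4)
    {k : ℕ} (hk : k ≤ T) : |L.y (x k) - p| ≤ 3 / 4 := by
  obtain ⟨ε, hS, h3⟩ := sdata_of_dat L hf hD
  have hnm := nm_of_min (β := β) (Φ := Φ) (M0 := M0) L hK (h3 s hs) (by omega) hx hmin.le
  have := surg_room hS hnm (by linarith [h0.2]) (by linarith [h1.1]) hT hk
  rw [abs_le]
  constructor
  · linarith [this.1, h0.1]
  · linarith [this.2, h1.2]

theorem exists_seq {p β Φ M0 : ℝ} {f : E → ℝ → ℝ} (hf : L.IsPot f)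
    (hD : L.Dat p β Φ M0 f) {σ : ℕ → ℝ} {I : ℕ → Finset (ℕ × ℕ)} {cc : ℕ → ℕ × ℕ → ℝ} {D : ℕ → Set E}
    (hC : Chn L p β M0 f σ I cc D) :
    ∃ (w : ℕ → E) (ν : ℕ → ℕ) (B : ℝ), Tendsto ν atTop atTop ∧
      (∀ j, IsLocalMin (fun x => ker f 0 0 1 (w j) x + ker f 0 0 1 x (w (j + 2))) (w (j + 1))) ∧
      ∀ j, ker f (L.vel (σ (ν j))) 0 1 (w j) (w (j + 1)) ≤ B := by
  classical
  obtain ⟨M, hM⟩ := isPot_good L hf
  obtain ⟨B, Λ', hB, hΛ', hKD⟩ := kd_kbar L M
  have hK : ∀ s, KD (L.kbar f s) (L.cell p) (L.room p) B Λ' := fun s => hKD f hM hf.perb s p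
  have hI1 : ∀ n, ∀ q ∈ I n, 1 ≤ q.1 + q.2 := fun n q hq => by have := hC.le n q hq; omega
  have hroom : ∀ n, ∀ z ∈ D n, z ∈ L.room p := fun n z hz => strip_room L (hC.strip n z hz)
  have hroomg : ∀ n, ∀ z ∈ D n, z - L.g ∈ L.room p := fun n z hz => strip_room_g L (hC.strip n z hz)
  set G : ℕ → E → E → ℝ := fun n => gI (L.kbar f (σ n)) (L.cell p) (I n) (cc n) with hG
  set τ : ℕ → E := fun n => L.vel (σ n) - L.vel (σ (n - 1)) with hτ
  have hτ1 : ∀ n, τ (n + 1) = L.vel (σ (n + 1)) - L.vel (σ n) := fun n => by simp [hτ]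
  obtain ⟨z, hzD, hzint, hzopt⟩ := chain_points (L.room p) L.g G D τ hC.comp hC.Dne hroom hroomg
    (fun n => gI_continuousOn (hK _) (hC.ne n) (hI1 n) _)
    (fun n ζ hζ => by
      obtain ⟨w, hw, h⟩ := hC.gate n ζ hζ
      refine ⟨w, hw, fun x hx x' hx' => ?_⟩
      rw [hτ1]
      exact h x hx x' hx')
  -- realization of the segments
  have hreal : ∀ n, ∃ (T : ℕ) (c0 : ℝ) (x : ℕ → E), 2 * Lat.R1 β + 2 ≤ T ∧ x 0 = z n - L.g ∧
      x T = z (n + 1) ∧ (∀ k ≤ T, x k ∈ L.room p) ∧
      G n (z n - L.g) (z (n + 1)) = cost (L.kbar f (σ n)) x T + c0 ∧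
      cost (L.kbar f (σ n)) x T = kp (L.kbar f (σ n)) (L.cell p) T (z n - L.g) (z (n + 1)) ∧
      ∀ x' : ℕ → E, (∀ k ≤ T, x' k ∈ L.room p) → G n (x' 0) (x' T) ≤ cost (L.kbar f (σ n)) x' T + c0 :=
    fun n => gI_realize (hK _) (hC.ne n) _ _ (by omega) (hC.le n) (hroomg n _ (hzD n)) (hroom _ _ (hzD _))
  choose T c0 X hT hX0 hXT hXr hXc hXk hXopt using hreal
  have hTpos : ∀ n, 0 < T n := fun n => by have := hT n; omega
  have hXin : ∀ n k, k ≤ T n → |L.y (X n k) - p| ≤ 3 / 4 := by
    intro n k hk
    refine trans_room L hf hD (hK _) (hC.M0le n) (hT n) (hXr n) ?_ ?_ ?_ hk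
    · rw [hXk n, hX0, hXT]
    · rw [hX0, y_sub, y_g]
      have := hC.strip n _ (hzD n)
      constructor <;> linarith [this.1, this.2]
    · rw [hXT]
      exact hC.strip _ _ (hzD _)
  -- lifts
  have hlift : ∀ n k, ∃ ν : Fin d → ℤ, L.kbar f (σ n) (X n k) (X n (k + 1)) =
      ker f (L.vel (σ n)) 0 1 (X n k) (X n (k + 1) + L.lv ν) := fun n k => kbar_attained L hM _ _ _
  choose ν hν using hlift
  set Λ0 : ℕ → E := fun n => ∑ m ∈ Finset.range n, ((∑ k ∈ Finset.range (T m), L.lv (ν m k)) + L.g) with hΛ0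
  set Λ : ℕ → ℕ → E := fun n k => Λ0 n + ∑ j ∈ Finset.range k, L.lv (ν n j) with hΛ
  have hΛs : ∀ n k, Λ n (k + 1) = L.lv (ν n k) + Λ n k := by
    intro n k
    simp only [hΛ]
    rw [Finset.sum_range_succ]; abel
  have hΛn : ∀ n, Λ (n + 1) 0 = Λ n (T n) + L.g := by
    intro n
    simp only [hΛ, hΛ0]
    rw [Finset.sum_range_succ, Finset.sum_range_zero, add_zero, add_assoc]
  have hper0 : PerV f (0 : E) := fun x t => by simp
  have hperlv : ∀ n : Fin d → ℤ, PerV f (L.lv n) := fun n x t => per_lv L hf.perb n x t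
  have hpersum : ∀ (a : ℕ → Fin d → ℤ) (k : ℕ), PerV f (∑ j ∈ Finset.range k, L.lv (a j)) := by
    intro a k
    induction k with
    | zero => simpa using hper0
    | succ k ih => rw [Finset.sum_range_succ]; exact ih.add (hperlv _)
  have hperΛ0 : ∀ n, PerV f (Λ0 n) := by
    intro n
    induction n with
    | zero => simpa [hΛ0] using hper0
    | succ n ih =>
      simp only [hΛ0] at ih ⊢
      rw [Finset.sum_range_succ]
      exact ih.add ((hpersum _ _).add hf.perg)
  have hperΛ : ∀ n k, PerV f (Λ n k) := fun n k => (hperΛ0 n).add (hpersum _ _)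
  set S := st T with hSdef
  have hlt : ∀ j, (S j).2 < T (S j).1 := st_lt hTpos
  have hS1 : ∀ j, S (j + 1) = if (S j).2 + 1 < T (S j).1 then ((S j).1, (S j).2 + 1)
      else ((S j).1 + 1, 0) := fun j => rfl
  set w : ℕ → E := fun j => X (S j).1 (S j).2 + Λ (S j).1 (S j).2 with hw
  have hw1 : ∀ j, w (j + 1) = X (S j).1 ((S j).2 + 1) + Λ (S j).1 ((S j).2 + 1) := by
    intro j
    simp only [hw]
    rw [hS1]
    by_cases h : (S j).2 + 1 < T (S j).1
    · rw [if_pos h]
    · rw [if_neg h]
      simp only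
      have h2 : (S j).2 + 1 = T (S j).1 := by have := hlt j; omega
      rw [h2, hX0, hΛn, hXT]; abel
  -- lower bounds of kernels near a site
  have hlow1 : ∀ n k (x : E), L.kbar f (σ n) (X n k) (x - Λ n (k + 1)) ≤
      ker f (L.vel (σ n)) 0 1 (X n k + Λ n k) x := by
    intro n k x
    have h1 := ker_translate (Λ n k) (hperΛ n k) (L.vel (σ n)) 0 1 (X n k) (x - Λ n (k + 1) + L.lv (ν n k))
    have h2 : x - Λ n (k + 1) + L.lv (ν n k) + Λ n k = x := by rw [hΛs]; abel
    rw [h2] at h1
    rw [h1]
    exact kbar_le_ker L hM _ _ _ _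
  have hlow2 : ∀ n k (x : E), L.kbar f (σ n) (x - Λ n k) (X n (k + 1)) ≤
      ker f (L.vel (σ n)) 0 1 x (X n (k + 1) + Λ n (k + 1)) := by
    intro n k x
    have h1 := ker_translate (Λ n k) (hperΛ n k) (L.vel (σ n)) 0 1 (x - Λ n k) (X n (k + 1) + L.lv (ν n k))
    have h2 : x - Λ n k + Λ n k = x := by abel
    have h3 : X n (k + 1) + L.lv (ν n k) + Λ n k = X n (k + 1) + Λ n (k + 1) := by rw [hΛs]; abel
    rw [h2, h3] at h1
    rw [h1]
    exact kbar_le_ker L hM _ _ _ _
  have heq : ∀ n k, ker f (L.vel (σ n)) 0 1 (X n k + Λ n k) (X n (k + 1) + Λ n (k + 1)) =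
      L.kbar f (σ n) (X n k) (X n (k + 1)) := by
    intro n k
    rw [hν]
    have h1 := ker_translate (Λ n k) (hperΛ n k) (L.vel (σ n)) 0 1 (X n k) (X n (k + 1) + L.lv (ν n k))
    have h3 : X n (k + 1) + L.lv (ν n k) + Λ n k = X n (k + 1) + Λ n (k + 1) := by rw [hΛs]; abel
    rw [h3] at h1
    exact h1
  refine ⟨w, fun j => (S j).1, B, st_tendsto hTpos, ?_, ?_⟩
  · intro j
    by_cases h : (S j).2 + 1 < T (S j).1
    · -- interior site of segment n
      set n := (S j).1 with hn
      set k := (S j).2 with hk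
      have hS' : S (j + 1) = (n, k + 1) := by rw [hS1]; exact if_pos h
      have e0 : w j = X n k + Λ n k := rfl
      have e1 : w (j + 1) = X n (k + 1) + Λ n (k + 1) := hw1 j
      have e2 : w (j + 2) = X n (k + 1 + 1) + Λ n (k + 1 + 1) := by
        have := hw1 (j + 1)
        rw [hS'] at this
        exact this
      apply site_min hM (L.vel (σ n)) (L.vel (σ n))
      have hopen : ∀ᶠ x in 𝓝 (w (j + 1)), x - Λ n (k + 1) ∈ L.room p := by
        have hc : Continuous (fun x : E => |L.y (x - Λ n (k + 1)) - p|) :=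
          (((y_continuous L).comp (continuous_id.sub continuous_const)).sub continuous_const).abs
        have h1 : |L.y (w (j + 1) - Λ n (k + 1)) - p| < 7 / 8 := by
          rw [e1, add_sub_cancel_right]
          have := hXin n (k + 1) (by omega)
          linarith
        filter_upwards [hc.continuousAt.eventually (gt_mem_nhds h1)] with x hx
        exact hx.le
      filter_upwards [hopen] with x hx
      rw [sub_self, inner_zero_left, inner_zero_left, sub_zero, sub_zero, e0, e2]
      have a1 := hlow1 n k x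
      have a2 := hlow2 n (k + 1) x
      have b1 := heq n k
      have b2 := heq n (k + 1)
      rw [e1, b1, b2]
      -- optimality
      set x' : ℕ → E := Function.update (X n) (k + 1) (x - Λ n (k + 1)) with hx'
      have hx'r : ∀ l ≤ T n, x' l ∈ L.room p := by
        intro l hl
        by_cases hlk : l = k + 1
        · subst hlk; simp only [hx', Function.update_self]; exact hx
        · simp only [hx', Function.update_of_ne hlk]; exact hXr n l hl
      have h3 := hXopt n x' hx'r
      have h4 : x' 0 = z n - L.g := by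
        simp only [hx', Function.update_of_ne (show (0:ℕ) ≠ k + 1 by omega)]; exact hX0 n
      have h5 : x' (T n) = z (n + 1) := by
        simp only [hx', Function.update_of_ne (show T n ≠ k + 1 by omega)]; exact hXT n
      rw [h4, h5, hXc n] at h3
      have h6 : cost (L.kbar f (σ n)) (X n) (T n) ≤ cost (L.kbar f (σ n)) x' (T n) := by linarith
      unfold cost at h6
      have hdiff : ∑ l ∈ Finset.range (T n), (L.kbar f (σ n) (x' l) (x' (l + 1)) -
          L.kbar f (σ n) (X n l) (X n (l + 1))) =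
          (L.kbar f (σ n) (x' k) (x' (k + 1)) - L.kbar f (σ n) (X n k) (X n (k + 1))) +
          (L.kbar f (σ n) (x' (k + 1)) (x' (k + 1 + 1)) -
            L.kbar f (σ n) (X n (k + 1)) (X n (k + 1 + 1))) := by
        have hsub : ({k, k + 1} : Finset ℕ) ⊆ Finset.range (T n) := by
          intro l hl
          simp only [Finset.mem_insert, Finset.mem_singleton] at hl
          rw [Finset.mem_range]
          omega
        rw [← Finset.sum_subset hsub, Finset.sum_pair (by omega)]
        intro l _ hl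
        simp only [Finset.mem_insert, Finset.mem_singleton, not_or] at hl
        have q1 : x' l = X n l := by simp only [hx', Function.update_of_ne (show l ≠ k + 1 by omega)]
        have q2 : x' (l + 1) = X n (l + 1) := by
          simp only [hx', Function.update_of_ne (show l + 1 ≠ k + 1 by omega)]
        rw [q1, q2, sub_self]
      have q1 : x' k = X n k := by simp only [hx', Function.update_of_ne (show k ≠ k + 1 by omega)]
      have q2 : x' (k + 1) = x - Λ n (k + 1) := by simp only [hx', Function.update_self]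
      have q3 : x' (k + 1 + 1) = X n (k + 1 + 1) := by
        simp only [hx', Function.update_of_ne (show k + 1 + 1 ≠ k + 1 by omega)]
      rw [q1, q2, q3, Finset.sum_sub_distrib] at hdiff
      linarith
    · -- gate
      set n := (S j).1 with hn
      set k := (S j).2 with hk
      have hkT : k + 1 = T n := by
        have h' : k < T n := hlt j
        omega
      have hS' : S (j + 1) = (n + 1, 0) := by rw [hS1]; exact if_neg h
      have e0 : w j = X n k + Λ n k := rfl
      have e1 : w (j + 1) = z (n + 1) + Λ n (k + 1) := by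
        have := hw1 j
        rw [← hn, ← hk, hkT, hXT] at this
        rw [hkT]; exact this
      have e2 : w (j + 2) = X (n + 1) (0 + 1) + Λ (n + 1) (0 + 1) := by
        have := hw1 (j + 1)
        rw [hS'] at this
        exact this
      have hΛg : Λ (n + 1) 0 = Λ n (k + 1) + L.g := by rw [hkT]; exact hΛn n
      apply site_min hM (L.vel (σ n)) (L.vel (σ (n + 1)))
      have hopen : ∀ᶠ x in 𝓝 (w (j + 1)), x - Λ n (k + 1) ∈ D (n + 1) := by
        have hc : Continuous (fun x : E => x - Λ n (k + 1)) := continuous_id.sub continuous_const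
        have h1 : w (j + 1) - Λ n (k + 1) ∈ interior (D (n + 1)) := by
          rw [e1, add_sub_cancel_right]; exact hzint n
        filter_upwards [hc.continuousAt.eventually (isOpen_interior.mem_nhds h1)] with x hx
        exact interior_subset hx
      filter_upwards [hopen] with x hx
      rw [e0, e2]
      have a1 := hlow1 n k x
      have a2 := hlow2 (n + 1) 0 x
      have b1 := heq n k
      have b2 := heq (n + 1) 0
      have c1 : w (j + 1) = X n (k + 1) + Λ n (k + 1) := hw1 j
      have c2 : w (j + 1) = X (n + 1) 0 + Λ (n + 1) 0 := by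
        rw [e1, hX0, hΛg]; abel
      rw [← c1] at b1
      rw [← c2] at b2
      rw [b1, b2]
      -- optimality at the gate
      set ξ := x - Λ n (k + 1) with hξ
      have hξD : ξ ∈ D (n + 1) := hx
      have hξg : x - Λ (n + 1) 0 = ξ - L.g := by rw [hΛg, hξ]; abel
      rw [hξg] at a2
      have h3 := hzopt n ξ hξD
      rw [hτ1] at h3
      -- modified left path
      set x' : ℕ → E := Function.update (X n) (k + 1) ξ with hx'
      have hx'r : ∀ l ≤ T n, x' l ∈ L.room p := by
        intro l hl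
        by_cases hlk : l = k + 1
        · subst hlk; simp only [hx', Function.update_self]; exact hroom _ _ hξD
        · simp only [hx', Function.update_of_ne hlk]; exact hXr n l hl
      have h4 := hXopt n x' hx'r
      have h5 : x' 0 = z n - L.g := by
        simp only [hx', Function.update_of_ne (show (0:ℕ) ≠ k + 1 by omega)]; exact hX0 n
      have h6 : x' (T n) = ξ := by rw [← hkT]; simp only [hx', Function.update_self]
      rw [h5, h6] at h4
      -- modified right path
      set x'' : ℕ → E := Function.update (X (n + 1)) 0 (ξ - L.g) with hx''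
      have hx''r : ∀ l ≤ T (n + 1), x'' l ∈ L.room p := by
        intro l hl
        by_cases hlk : l = 0
        · subst hlk; simp only [hx'', Function.update_self]; exact hroomg _ _ hξD
        · simp only [hx'', Function.update_of_ne hlk]; exact hXr (n + 1) l hl
      have h7 := hXopt (n + 1) x'' hx''r
      have h8 : x'' 0 = ξ - L.g := by simp only [hx'', Function.update_self]
      have h9 : x'' (T (n + 1)) = z (n + 2) := by
        simp only [hx'', Function.update_of_ne (show T (n + 1) ≠ 0 by have := hTpos (n + 1); omega)]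
        exact hXT (n + 1)
      rw [h8, h9] at h7
      -- costs of the modified paths
      have hd1 : cost (L.kbar f (σ n)) x' (T n) - cost (L.kbar f (σ n)) (X n) (T n) =
          L.kbar f (σ n) (X n k) ξ - L.kbar f (σ n) (X n k) (X n (k + 1)) := by
        unfold cost
        rw [← hkT, Finset.sum_range_succ, Finset.sum_range_succ]
        have : ∑ l ∈ Finset.range k, L.kbar f (σ n) (x' l) (x' (l + 1)) =
            ∑ l ∈ Finset.range k, L.kbar f (σ n) (X n l) (X n (l + 1)) := by
          refine Finset.sum_congr rfl fun l hl => ?_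
          rw [Finset.mem_range] at hl
          have q1 : x' l = X n l := by simp only [hx', Function.update_of_ne (show l ≠ k + 1 by omega)]
          have q2 : x' (l + 1) = X n (l + 1) := by
            simp only [hx', Function.update_of_ne (show l + 1 ≠ k + 1 by omega)]
          rw [q1, q2]
        have q1 : x' k = X n k := by simp only [hx', Function.update_of_ne (show k ≠ k + 1 by omega)]
        have q2 : x' (k + 1) = ξ := by simp only [hx', Function.update_self]
        rw [this, q1, q2]; ring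
      have hd2 : cost (L.kbar f (σ (n + 1))) x'' (T (n + 1)) - cost (L.kbar f (σ (n + 1))) (X (n + 1)) (T (n + 1)) =
          L.kbar f (σ (n + 1)) (ξ - L.g) (X (n + 1) (0 + 1)) -
            L.kbar f (σ (n + 1)) (X (n + 1) 0) (X (n + 1) (0 + 1)) := by
        unfold cost
        obtain ⟨T', hT'⟩ : ∃ T', T (n + 1) = T' + 1 := ⟨T (n + 1) - 1, by have := hTpos (n + 1); omega⟩
        rw [hT', Finset.sum_range_succ', Finset.sum_range_succ']
        have : ∑ l ∈ Finset.range T', L.kbar f (σ (n + 1)) (x'' (l + 1)) (x'' (l + 1 + 1)) =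
            ∑ l ∈ Finset.range T', L.kbar f (σ (n + 1)) (X (n + 1) (l + 1)) (X (n + 1) (l + 1 + 1)) := by
          refine Finset.sum_congr rfl fun l _ => ?_
          have q1 : x'' (l + 1) = X (n + 1) (l + 1) := by
            simp only [hx'', Function.update_of_ne (show l + 1 ≠ 0 by omega)]
          have q2 : x'' (l + 1 + 1) = X (n + 1) (l + 1 + 1) := by
            simp only [hx'', Function.update_of_ne (show l + 1 + 1 ≠ 0 by omega)]
          rw [q1, q2]
        have q2 : x'' (0 + 1) = X (n + 1) (0 + 1) := by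
          simp only [hx'', Function.update_of_ne (show 0 + 1 ≠ 0 by omega)]
        rw [this, h8, q2]; ring
      have i1 : inner ℝ (L.vel (σ (n + 1)) - L.vel (σ n)) (w (j + 1)) =
          inner ℝ (L.vel (σ (n + 1)) - L.vel (σ n)) (z (n + 1)) +
            inner ℝ (L.vel (σ (n + 1)) - L.vel (σ n)) (Λ n (k + 1)) := by rw [e1, inner_add_right]
      have i2 : inner ℝ (L.vel (σ (n + 1)) - L.vel (σ n)) x =
          inner ℝ (L.vel (σ (n + 1)) - L.vel (σ n)) ξ +
            inner ℝ (L.vel (σ (n + 1)) - L.vel (σ n)) (Λ n (k + 1)) := by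
        rw [← inner_add_right]; congr 1; rw [hξ]; abel
      rw [i1, i2]
      have hc1 := hXc n
      have hc2 := hXc (n + 1)
      simp only [zero_add] at *
      linarith
  · intro j
    rw [hw1 j]
    have h1 := heq (S j).1 (S j).2
    simp only [hw] at *
    rw [h1]
    have h2 := hlt j
    have h3 := (hK (σ (S j).1)).bd _ (hXr (S j).1 (S j).2 h2.le) _ (hXr (S j).1 ((S j).2 + 1) h2)
    exact (abs_le.1 h3).2

end Esc.H33
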