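import Pool.Agent.helper33.Esc.Far2

/-!
Auxiliary lemmas for the density of stages.
-/

noncomputable section

namespace Esc.H33

open MeasureTheory Set Filter Topology
open scoped ContDiff

/-! ### invariance of powers and barrier -/

section inv

variable {Y : Type*} {K : Y → Y → ℝ} {C : Set Y}

lemma kp_congr_left {z w : Y} (h : ∀ x, K z x = K w x) {T : ℕ} (hT : 1 ≤ T) (z' : Y) :
    kp K C T z z' = kp K C T w z' := by
  match T, hT with
  | 1, _ => exact h z'
  | n + 2, _ =>
    show (⨅ x : C, (K z x + kp K C (n + 1) x z')) = ⨅ x : C, (K w x + kp K C (n + 1) x z')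
    congr 1
    funext x
    rw [h]

lemma kp_congr_right {z w : Y} (h : ∀ x, K x z = K x w) : ∀ (T : ℕ), 1 ≤ T → ∀ z' : Y,
    kp K C T z' z = kp K C T z' w := by
  intro T
  induction T with
  | zero => intro h; omega
  | succ T ih =>
    intro _ z'
    match T with
    | 0 => exact h z'
    | n + 1 =>
      show (⨅ x : C, (K z' x + kp K C (n + 1) x z)) = ⨅ x : C, (K z' x + kp K C (n + 1) x w)
      congr 1
      funext x
      rw [ih (by omega)]

lemma bar_congr_left {z w : Y} (h : ∀ x, K z x = K w x) (z' : Y) : bar K C z z' = bar K C w z' := by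
  unfold bar
  congr 1; funext S; congr 1; funext j
  rw [kp_congr_left h (by omega)]

lemma bar_congr_right {z w : Y} (h : ∀ x, K x z = K x w) (z' : Y) : bar K C z' z = bar K C z' w := by
  unfold bar
  congr 1; funext S; congr 1; funext j
  rw [kp_congr_right h _ (by omega)]

end inv

variable {d : ℕ} {E : Type*} [NormedAddCommGroup E] [InnerProductSpace ℝ E] [FiniteDimensional ℝ E]
  (L : Lat d E)

lemma bar_lv_left {f : E → ℝ → ℝ} (h : ∀ i x t, f (x + L.b i) t = f x t) (p s : ℝ) (m : Fin d → ℤ) (z z' : E) :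
    bar (L.kbar f s) (L.cell p) (z + L.lv m) z' = bar (L.kbar f s) (L.cell p) z z' := by
  apply bar_congr_left
  intro x
  have := kbar_per L h s z x m 0
  rwa [lv_zero, add_zero] at this

lemma bar_lv_right {f : E → ℝ → ℝ} (h : ∀ i x t, f (x + L.b i) t = f x t) (p s : ℝ) (m : Fin d → ℤ) (z z' : E) :
    bar (L.kbar f s) (L.cell p) z (z' + L.lv m) = bar (L.kbar f s) (L.cell p) z z' := by
  apply bar_congr_right
  intro x
  have := kbar_per L h s x z' 0 m
  rwa [lv_zero, add_zero] at this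

/-! ### fast velocities on a compact interval -/

omit [FiniteDimensional ℝ E] in
lemma vel_contDiff : ContDiff ℝ 1 L.vel := by
  unfold Lat.vel
  exact ContDiff.sum fun i _ => (contDiff_id.pow _).smul contDiff_const

omit [FiniteDimensional ℝ E] in
lemma vel_bounds (a b : ℝ) : ∃ C : ℝ, 0 < C ∧ (∀ s ∈ Icc a b, ‖L.vel s‖ ≤ C) ∧
    ∀ s ∈ Icc a b, ∀ s' ∈ Icc a b, ‖L.vel s - L.vel s'‖ ≤ C * |s - s'| := by
  have h1 := vel_contDiff L
  obtain ⟨C1, hC1⟩ := (isCompact_Icc (a := a) (b := b)).exists_bound_of_continuousOn h1.continuous.continuousOn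
  obtain ⟨C2, hC2⟩ := (isCompact_Icc (a := a) (b := b)).exists_bound_of_continuousOn
    (h1.continuous_deriv le_rfl).continuousOn
  refine ⟨max C1 C2 + 1 + |C1| , ?_, fun s hs => ?_, fun s hs s' hs' => ?_⟩
  · have : -|C1| ≤ C1 := neg_abs_le _
    have := le_max_left C1 C2
    linarith
  · have := hC1 s hs
    have h3 := le_max_left C1 C2
    have := abs_nonneg C1
    linarith
  · have h2 : ‖L.vel s - L.vel s'‖ ≤ C2 * ‖s - s'‖ :=
      Convex.norm_image_sub_le_of_norm_deriv_le (f := L.vel) (s := Icc a b) (C := C2) (x := s') (y := s)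
        (fun r _ => (h1.differentiable one_ne_zero) r) (fun r hr => hC2 r hr) (convex_Icc a b) hs' hs
    refine h2.trans (mul_le_mul_of_nonneg_right ?_ (norm_nonneg _))
    have := le_max_right C1 C2
    have := abs_nonneg C1
    linarith

/-! ### sums of potentials -/

section good

variable {E : Type*} [NormedAddCommGroup E] [InnerProductSpace ℝ E]

lemma good_add {M K : ℝ} {f G : E → ℝ → ℝ} (hf : Good M f) (hG : Good K G) :
    Good (M + K) (fun x t => f x t + G x t) := by
  refine ⟨add_nonneg hf.pos hG.pos, hf.cont.add hG.cont, fun x t => ?_, fun x x' t => ?_, fun x t t' => ?_⟩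
  · exact (abs_add_le _ _).trans (add_le_add (hf.bd x t) (hG.bd x t))
  · have : f x t + G x t - (f x' t + G x' t) = (f x t - f x' t) + (G x t - G x' t) := by ring
    rw [this, add_mul]
    exact (abs_add_le _ _).trans (add_le_add (hf.lipx x x' t) (hG.lipx x x' t))
  · have : f x t + G x t - (f x t' + G x t') = (f x t - f x t') + (G x t - G x t') := by ring
    rw [this, add_mul]
    exact (abs_add_le _ _).trans (add_le_add (hf.lipt x t t') (hG.lipt x t t'))

lemma good_smul {K : ℝ} {G : E → ℝ → ℝ} (c : ℝ) (hG : Good K G) :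
    Good (|c| * K) (fun x t => c * G x t) := by
  refine ⟨mul_nonneg (abs_nonneg _) hG.pos, continuous_const.mul hG.cont, fun x t => ?_, fun x x' t => ?_,
    fun x t t' => ?_⟩
  · rw [abs_mul]; exact mul_le_mul_of_nonneg_left (hG.bd x t) (abs_nonneg _)
  · rw [← mul_sub, abs_mul, mul_assoc]; exact mul_le_mul_of_nonneg_left (hG.lipx x x' t) (abs_nonneg _)
  · rw [← mul_sub, abs_mul, mul_assoc]; exact mul_le_mul_of_nonneg_left (hG.lipt x t t') (abs_nonneg _)

lemma good_zero : Good (0:ℝ) (fun (_ : E) (_ : ℝ) => (0:ℝ)) :=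
  ⟨le_rfl, continuous_const, fun _ _ => by simp, fun _ _ _ => by simp, fun _ _ _ => by simp⟩

lemma good_sum {ι : Type*} (I : Finset ι) (σ : ι → ℝ) (G : ι → E → ℝ → ℝ) {K ε' : ℝ} (hK : 0 ≤ K)
    (hG : ∀ i ∈ I, Good K (G i)) (hσ : ∀ i ∈ I, 0 ≤ σ i ∧ σ i ≤ ε') :
    Good (I.card * (ε' * K)) (fun x t => ∑ i ∈ I, σ i * G i x t) := by
  classical
  induction I using Finset.induction_on with
  | empty => simpa using good_zero (E := E)
  | insert i I hi ih =>
    have h1 := ih (fun j hj => hG j (Finset.mem_insert_of_mem hj)) (fun j hj => hσ j (Finset.mem_insert_of_mem hj))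
    have h2 := good_smul (σ i) (hG i (Finset.mem_insert_self _ _))
    obtain ⟨h3, h4⟩ := hσ i (Finset.mem_insert_self _ _)
    have h5 : |σ i| * K ≤ ε' * K := by
      rw [abs_of_nonneg h3]; exact mul_le_mul_of_nonneg_right h4 hK
    have h6 := good_add (good_mono h2 h5) h1
    have h7 : ((insert i I).card : ℝ) * (ε' * K) = ε' * K + I.card * (ε' * K) := by
      rw [Finset.card_insert_of_notMem hi]; push_cast; ring
    rw [h7]
    have h8 : (fun (x : E) (t : ℝ) => ∑ j ∈ insert i I, σ j * G j x t) =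
        fun x t => σ i * G i x t + ∑ j ∈ I, σ j * G j x t := by
      funext x t; rw [Finset.sum_insert hi]
    rw [h8]; exact h6

end good

omit [FiniteDimensional ℝ E] in
lemma isSm_add {G G' : E → ℝ → ℝ} (h : L.IsSm G) (h' : L.IsSm G') : L.IsSm (fun x t => G x t + G' x t) :=
  ⟨h.smooth.add h'.smooth, fun i x t => by rw [h.perb, h'.perb], fun x t => by rw [h.perg, h'.perg],
    fun x t => by rw [h.pert, h'.pert]⟩

omit [FiniteDimensional ℝ E] in
lemma isSm_smul (c : ℝ) {G : E → ℝ → ℝ} (h : L.IsSm G) : L.IsSm (fun x t => c * G x t) :=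
  ⟨contDiff_const.mul h.smooth, fun i x t => by rw [h.perb], fun x t => by rw [h.perg],
    fun x t => by rw [h.pert]⟩

omit [FiniteDimensional ℝ E] in
lemma isSm_zero : L.IsSm (fun (_ : E) (_ : ℝ) => (0:ℝ)) :=
  ⟨contDiff_const, fun _ _ _ => rfl, fun _ _ => rfl, fun _ _ => rfl⟩

omit [FiniteDimensional ℝ E] in
lemma isSm_sum {ι : Type*} (I : Finset ι) (σ : ι → ℝ) (G : ι → E → ℝ → ℝ) (hG : ∀ i ∈ I, L.IsSm (G i)) :
    L.IsSm (fun x t => ∑ i ∈ I, σ i * G i x t) := by
  classical
  induction I using Finset.induction_on with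
  | empty => simpa using isSm_zero L
  | insert i I hi ih =>
    have h8 : (fun (x : E) (t : ℝ) => ∑ j ∈ insert i I, σ j * G j x t) =
        fun x t => σ i * G i x t + ∑ j ∈ I, σ j * G j x t := by
      funext x t; rw [Finset.sum_insert hi]
    rw [h8]
    exact isSm_add L (isSm_smul L _ (hG i (Finset.mem_insert_self _ _)))
      (ih fun j hj => hG j (Finset.mem_insert_of_mem hj))

omit [FiniteDimensional ℝ E] in
lemma nm_nonneg (N : L.SmNorm) {G : E → ℝ → ℝ} (h : L.IsSm G) : 0 ≤ N.nm G :=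
  (abs_nonneg _).trans (N.sup_le G h 0 0)

omit [FiniteDimensional ℝ E] in
lemma nm_zero (N : L.SmNorm) : N.nm (fun (_ : E) (_ : ℝ) => (0:ℝ)) = 0 := by
  have h1 := N.smul_le 0 _ (isSm_zero L)
  simp only [mul_zero, abs_zero, zero_mul] at h1
  exact le_antisymm h1 (nm_nonneg L N (isSm_zero L))

omit [FiniteDimensional ℝ E] in
lemma nm_sum {ι : Type*} (N : L.SmNorm) (I : Finset ι) (σ : ι → ℝ) (G : ι → E → ℝ → ℝ) {K ε' : ℝ} (hK : 0 ≤ K)
    (hG : ∀ i ∈ I, L.IsSm (G i)) (hGK : ∀ i ∈ I, N.nm (G i) ≤ K) (hσ : ∀ i ∈ I, 0 ≤ σ i ∧ σ i ≤ ε') :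
    N.nm (fun x t => ∑ i ∈ I, σ i * G i x t) ≤ I.card * (ε' * K) := by
  classical
  induction I using Finset.induction_on with
  | empty => simp [nm_zero L N]
  | insert i I hi ih =>
    have h1 := ih (fun j hj => hG j (Finset.mem_insert_of_mem hj)) (fun j hj => hGK j (Finset.mem_insert_of_mem hj))
      (fun j hj => hσ j (Finset.mem_insert_of_mem hj))
    have h8 : (fun (x : E) (t : ℝ) => ∑ j ∈ insert i I, σ j * G j x t) =
        fun x t => σ i * G i x t + ∑ j ∈ I, σ j * G j x t := by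
      funext x t; rw [Finset.sum_insert hi]
    rw [h8]
    have h2 := N.add_le _ _ (isSm_smul L (σ i) (hG i (Finset.mem_insert_self _ _)))
      (isSm_sum L I σ G fun j hj => hG j (Finset.mem_insert_of_mem hj))
    have h3 := N.smul_le (σ i) _ (hG i (Finset.mem_insert_self _ _))
    obtain ⟨h4, h5⟩ := hσ i (Finset.mem_insert_self _ _)
    rw [abs_of_nonneg h4] at h3
    have h6 : σ i * N.nm (G i) ≤ ε' * K :=
      mul_le_mul h5 (hGK i (Finset.mem_insert_self _ _)) (nm_nonneg L N (hG i (Finset.mem_insert_self _ _)))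
        (h4.trans h5)
    rw [Finset.card_insert_of_notMem hi]
    push_cast
    linarith

/-! ### closed cells in the cover -/

variable {n : ℕ}

/-- the representative closed cell -/
def Qc (p : ℝ) (k : Cl d n) : Set E := {x | ∀ j, |uc L p x j - ctr k j| ≤ 1 / (2 * n)}

omit [FiniteDimensional ℝ E] in
lemma uc_continuous (p : ℝ) (j : Option (Fin d)) : Continuous (fun x : E => uc L p x j) :=
  (uc_contDiff L p j (m := 0)).continuous

lemma Qc_compact (p : ℝ) (k : Cl d n) : IsCompact (Qc L p k) := by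
  rw [Metric.isCompact_iff_isClosed_bounded]
  constructor
  · have : Qc L p k = ⋂ j, {x | |uc L p x j - ctr k j| ≤ 1 / (2 * n)} := by
      ext x; simp [Qc]
    rw [this]
    exact isClosed_iInter fun j =>
      isClosed_le (((uc_continuous L p j).sub continuous_const).abs) continuous_const
  · rw [isBounded_iff_forall_norm_le]
    -- reference point: the origin shifted
    set c0 : ℝ := ∑ j, (|uc L p 0 j| + |ctr k j|) + 1 / (2 * n) with hc0
    refine ⟨kap2 L * c0, fun x hx => norm_le_uc L x fun j => ?_⟩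
    have h1 : uc L 0 x j = uc L p x j - uc L p 0 j := by rw [uc_sub, sub_zero]
    rw [h1]
    have h2 := hx j
    have h3 : |uc L p 0 j| + |ctr k j| ≤ ∑ j, (|uc L p 0 j| + |ctr k j|) :=
      Finset.single_le_sum (f := fun j => |uc L p 0 j| + |ctr k j|) (fun i _ => by positivity) (Finset.mem_univ j)
    have h4 : |uc L p x j - uc L p 0 j| ≤ |uc L p x j - ctr k j| + |ctr k j| + |uc L p 0 j| := by
      have e : uc L p x j - uc L p 0 j = (uc L p x j - ctr k j) + ctr k j - uc L p 0 j := by ring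
      rw [e]
      exact (abs_sub _ _).trans (add_le_add (abs_add_le _ _) le_rfl)
    linarith

lemma Qc_nonempty (p : ℝ) (k : Cl d n) : (Qc L p k).Nonempty := by
  refine ⟨∑ i, ctr k (some i) • L.b i + (ctr k none + p) • L.g, fun j => ?_⟩
  have h : (cequiv L).symm (∑ i, ctr k (some i) • L.b i + (ctr k none + p) • L.g) =
      (fun i => ctr k (some i), ctr k none + p) := by
    rw [ContinuousLinearEquiv.symm_apply_eq, cequiv_apply]
  have h2 : uc L p (∑ i, ctr k (some i) • L.b i + (ctr k none + p) • L.g) j = ctr k j := by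
    cases j with
    | none =>
      simp only [uc]
      rw [← symm_snd, h]; ring
    | some i => simp only [uc]; rw [h]
  rw [h2, sub_self, abs_zero]; positivity

omit [FiniteDimensional ℝ E] in
lemma Qc_inc {p : ℝ} {k : Cl d n} {x : E} (h : x ∈ Qc L p k) : inc L p k x :=
  fun j => ⟨0, by simpa using h j⟩

omit [FiniteDimensional ℝ E] in
lemma Qc_strip (hn : 48 ≤ n) {p : ℝ} (c : FC d n) {x : E} (h : x ∈ Qc L p c.1) :
    1 / 8 ≤ L.y x - p ∧ L.y x - p ≤ 7 / 8 := by
  have hn' : (48:ℝ) ≤ n := by exact_mod_cast hn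
  have hn0 : (0:ℝ) < n := by linarith
  have h1 : (n:ℝ) ≤ 4 * ((c.1 none : ℕ) + 1) := by exact_mod_cast c.2.1
  have h2 : 4 * ((c.1 none : ℕ) : ℝ) ≤ 3 * n := by exact_mod_cast c.2.2
  have hm := h none
  have e : uc L p x none = L.y x - p := rfl
  rw [e] at hm
  simp only [ctr] at hm
  set κ : ℝ := ((c.1 none : ℕ) : ℝ) with hκ
  have a1 : 1 / 4 - 1 / (2 * n) ≤ (κ + 1 / 2) / n := by
    rw [le_div_iff₀ hn0]
    have : (1 / 4 - 1 / (2 * (n:ℝ))) * n = n / 4 - 1 / 2 := by field_simp
    rw [this]; linarith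
  have a2 : (κ + 1 / 2) / n ≤ 3 / 4 + 1 / (2 * n) := by
    rw [div_le_iff₀ hn0]
    have : (3 / 4 + 1 / (2 * (n:ℝ))) * n = 3 * n / 4 + 1 / 2 := by field_simp
    rw [this]; linarith
  have a4 : (1:ℝ) / (2 * n) ≤ 1 / 96 := by
    rw [div_le_div_iff₀ (by positivity) (by norm_num)]; linarith
  rw [abs_le] at hm
  constructor <;> linarith [hm.1, hm.2]

omit [FiniteDimensional ℝ E] in
/-- a touched class is a far class, with a representative in the closed cell -/
lemma touched_rep (hn : 48 ≤ n) {p : ℝ} {k : Cl d n} {z : E} (hz : inc L p k z)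
    (h1 : 1 / 4 ≤ L.y z - p) (h2 : L.y z - p ≤ 3 / 4) :
    (n ≤ 4 * ((k none : ℕ) + 1) ∧ 4 * (k none : ℕ) ≤ 3 * n) ∧ ∃ m : Fin d → ℤ, z + L.lv m ∈ Qc L p k := by
  have hn' : (48:ℝ) ≤ n := by exact_mod_cast hn
  have hn0 : (0:ℝ) < n := by linarith
  choose m hm using hz
  have hkn : ((k none : ℕ) : ℝ) + 1 ≤ n := by exact_mod_cast (k none).2
  have hk0 : (0:ℝ) ≤ ((k none : ℕ) : ℝ) := Nat.cast_nonneg _
  have h0 := hm none
  have e : uc L p z none = L.y z - p := rfl
  rw [e] at h0
  have a4 : (1:ℝ) / (2 * n) ≤ 1 / 96 := by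
    rw [div_le_div_iff₀ (by positivity) (by norm_num)]; linarith
  have c1 : 0 ≤ ctr k none := by unfold ctr; positivity
  have c2 : ctr k none ≤ 1 := by
    unfold ctr; rw [div_le_one hn0]; linarith
  have hm0 : m none = 0 := by
    rw [abs_le] at h0
    have a : ((m none : ℤ) : ℝ) < 1 := by linarith [h0.1, h0.2]
    have b : (-1:ℝ) < ((m none : ℤ) : ℝ) := by linarith [h0.1, h0.2]
    have a' : m none < 1 := by exact_mod_cast a
    have b' : -1 < m none := by exact_mod_cast b
    omega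
  rw [hm0] at h0
  push_cast at h0
  rw [sub_zero, abs_le] at h0
  have hctr : ctr k none * n = (k none : ℕ) + 1 / 2 := by unfold ctr; field_simp
  have hh : (1:ℝ) / (2 * n) * n = 1 / 2 := by field_simp
  refine ⟨⟨?_, ?_⟩, fun i => - m (some i), fun j => ?_⟩
  · have h3 : (n:ℝ) ≤ 4 * (((k none : ℕ) : ℝ) + 1) := by
      have h4 : 1 / 4 * (n:ℝ) ≤ (ctr k none + 1 / (2 * n)) * n :=
        mul_le_mul_of_nonneg_right (by linarith [h0.2]) hn0.le
      rw [add_mul, hctr, hh] at h4
      linarith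
    exact_mod_cast h3
  · have h3 : 4 * ((k none : ℕ) : ℝ) ≤ 3 * n := by
      have h4 : (ctr k none - 1 / (2 * n)) * n ≤ 3 / 4 * (n:ℝ) :=
        mul_le_mul_of_nonneg_right (by linarith [h0.1]) hn0.le
      rw [sub_mul, hctr, hh] at h4
      linarith
    exact_mod_cast h3
  · rw [uc_add]
    cases j with
    | none =>
      have h4 : uc L 0 (L.lv fun i => - m (some i)) none = 0 := by simp only [uc, y_lv, sub_zero]
      have h5 := hm none
      rw [hm0] at h5
      push_cast at h5
      rw [sub_zero] at h5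
      rw [h4, add_zero]; exact h5
    | some i =>
      rw [uc_lv]
      have h5 := hm (some i)
      have : uc L p z (some i) + ((-m (some i) : ℤ) : ℝ) - ctr k (some i) =
          uc L p z (some i) - ctr k (some i) - (m (some i) : ℝ) := by push_cast; ring
      rw [this]; exact h5

end Esc.H33
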